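import Mathlib
import Pool.Agent.Q17.Mil.Res

/-!
# Extremal quasimodular forms of depth one: formal part
-/

set_option autoImplicit false

open UpperHalfPlane hiding I
open Real Complex Filter Topology Derivative EisensteinSeries ModularForm MatrixGroups Function
open scoped Manifold MatrixGroups ModularForm PowerSeries

namespace Pool.Agent.Q17.Ext

open Pool.Agent.Q17.Mil (HS E2p hs_E2 hs_form HS.mul HS.smul HS.sub HS.D HS.eq_q coeff_X_deriv)
open Pool.Agent.Q17

theorem ram2_formal : PowerSeries.X * d⁄dX ℂ E2p =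
    PowerSeries.C (12⁻¹ : ℂ) * (E2p ^ 2 - qExpansion 1 E₄) := by
  have h1 := ((hs_E2.mul hs_E2)).sub ((hs_E2.D).smul (12 : ℂ))
  have h2 : HS (E2p * E2p - PowerSeries.C (12 : ℂ) * (PowerSeries.X * d⁄dX ℂ E2p)) E₄ := by
    intro τ
    have h3 := h1 τ
    have h4 := Pool.Agent.Y949.J.ram2 τ
    have h5 : EisensteinSeries.E2 τ * EisensteinSeries.E2 τ -
        12 * Derivative.normalizedDerivOfComplex EisensteinSeries.E2 τ = E₄ τ := by
      change Derivative.normalizedDerivOfComplex EisensteinSeries.E2 τ = _ at h4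
      rw [h4]; ring
    beta_reduce at h3
    rw [h5] at h3
    exact h3
  have h3 := h2.eq_q
  have hc : (PowerSeries.C (12 : ℂ)) * (PowerSeries.C (12⁻¹ : ℂ)) = 1 := by
    rw [← map_mul]; norm_num
  rw [← h3]
  linear_combination (-(PowerSeries.X * d⁄dX ℂ E2p)) * hc

theorem ram2 : 12 * Mil.R.th Mil.R.E2 = Mil.R.E2 ^ 2 - Mil.R.E4 := by
  apply Mil.R.cm_inj
  have h := ram2_formal
  rw [Mil.R.q_E4, Mil.R.q_E2, ← Mil.R.cm_th] at h
  have hc : (12 : ℂ⟦X⟧) * (PowerSeries.C (12⁻¹ : ℂ)) = 1 := by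
    rw [← map_ofNat PowerSeries.C 12, ← map_mul]; norm_num
  rw [map_mul, map_sub, map_ofNat, h, map_pow]
  linear_combination (Mil.R.cm Mil.R.E2 ^ 2 - Mil.R.cm Mil.R.E4) * hc

end Pool.Agent.Q17.Ext

namespace Pool.Agent.Q17.Ext

open PowerSeries Pool.Agent.Q17.Mil.R Pool.Agent.Q17.Mil

/-- the constant `1 / 12` -/
noncomputable def tt : ℝ⟦X⟧ := C (1 / 12)

theorem tt12 : 12 * tt = 1 := by
  rw [tt, ← map_ofNat C 12, ← map_mul]; norm_num

theorem th_E2 : th R.E2 = tt * (R.E2 ^ 2 - R.E4) := by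
  linear_combination tt * ram2 - (th R.E2) * tt12

theorem th_E4 : th R.E4 = 4 * tt * (R.E2 * R.E4 - R.E6) := by
  linear_combination (4 * tt) * ram4 - (th R.E4) * tt12

theorem th_E6 : th R.E6 = 6 * tt * (R.E2 * R.E6 - R.E4 ^ 2) := by
  linear_combination (6 * tt) * ram6 - (th R.E6) * tt12

/-- the Kaneko-Zagier system -/
def OD (n : ℕ) (A B : ℝ⟦X⟧) : Prop :=
  th A + n * A = (6 * n - 1) * tt * R.E2 * A + B ∧
  th B + n * B = (6 * n + 1) * tt * R.E2 * B + (6 * n - 1) * (6 * n + 1) * tt ^ 2 * R.E4 * A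

/-- division by `X` -/
noncomputable def sh (f : ℝ⟦X⟧) : ℝ⟦X⟧ := PowerSeries.mk fun n => coeff (n + 1) f

theorem X_sh {f : ℝ⟦X⟧} (h : constantCoeff f = 0) : X * sh f = f := by
  ext n
  cases n with
  | zero => rw [coeff_zero_eq_constantCoeff_apply, coeff_zero_eq_constantCoeff_apply, h]; simp
  | succ n => rw [coeff_succ_X_mul, sh, coeff_mk]

theorem cc_sh (f : ℝ⟦X⟧) : constantCoeff (sh f) = coeff 1 f := by
  rw [← coeff_zero_eq_constantCoeff_apply, sh, coeff_mk]

theorem cc_E2 : constantCoeff R.E2 = 1 := by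
  rw [← coeff_zero_eq_constantCoeff_apply, R.E2, coeff_mk, if_pos rfl]

theorem c1_E2 : coeff 1 R.E2 = -24 := by
  rw [R.E2, coeff_mk, if_neg one_ne_zero]; simp

theorem c1_E4 : coeff 1 R.E4 = 240 := by
  rw [R.E4, coeff_mk, if_neg one_ne_zero]; simp

theorem c1_E6 : coeff 1 R.E6 = -504 := by
  rw [R.E6, coeff_mk, if_neg one_ne_zero]; simp

theorem coeff_one_mul' (f g : ℝ⟦X⟧) :
    coeff 1 (f * g) = constantCoeff f * coeff 1 g + coeff 1 f * constantCoeff g := by
  rw [coeff_mul, Finset.Nat.antidiagonal_succ]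
  simp

theorem cc_tt : constantCoeff tt = 1 / 12 := by rw [tt, constantCoeff_C]

theorem c1_tt : coeff 1 tt = 0 := by rw [tt, coeff_C, if_neg one_ne_zero]

theorem cc_nat (n : ℕ) : constantCoeff (n : ℝ⟦X⟧) = n := map_natCast _ n

theorem c1_nat (n : ℕ) : coeff 1 (n : ℝ⟦X⟧) = 0 := by
  rw [← map_natCast (C (R := ℝ)), coeff_C, if_neg one_ne_zero]

theorem c1_one : coeff 1 (1 : ℝ⟦X⟧) = 0 := by
  rw [coeff_one, if_neg one_ne_zero]

theorem c1_six : coeff 1 (6 : ℝ⟦X⟧) = 0 := by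
  have := c1_nat 6
  exact_mod_cast this

theorem cc_six : constantCoeff (6 : ℝ⟦X⟧) = 6 := by
  have := cc_nat 6
  exact_mod_cast this

/-- **the raising operator** -/
theorem raise (n : ℕ) (A B : ℝ⟦X⟧) (h : OD n A B) (hA : constantCoeff A = 1)
    (hB : constantCoeff B = (6 * n + 1) / 12) :
    ∃ (α : ℝ) (A' B' : ℝ⟦X⟧), OD (n + 1) A' B' ∧ constantCoeff A' = 1 ∧
      constantCoeff B' = (6 * (n + 1 : ℕ) + 1) / 12 ∧
      X * A' = C α * (R.E4 * B - (6 * (n : ℝ⟦X⟧) + 1) * tt * (R.E6 * A)) ∧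
      X * B' = C α * ((6 * (n : ℝ⟦X⟧) + 5) * tt *
        ((6 * (n : ℝ⟦X⟧) + 1) * tt * (R.E4 ^ 2 * A) - R.E6 * B)) := by
  obtain ⟨h1, h2⟩ := h
  set U : ℝ⟦X⟧ := R.E4 * B - (6 * n + 1) * tt * (R.E6 * A) with hU
  set V : ℝ⟦X⟧ := (6 * n + 5) * tt * ((6 * n + 1) * tt * (R.E4 ^ 2 * A) - R.E6 * B) with hV
  have c5 : constantCoeff (5 : ℝ⟦X⟧) = 5 := by
    have := cc_nat 5
    exact_mod_cast this
  have d5 : coeff 1 (5 : ℝ⟦X⟧) = 0 := by
    have := c1_nat 5
    exact_mod_cast this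
  have hU0 : constantCoeff U = 0 := by
    rw [hU]
    simp only [map_sub, map_mul, map_add, map_one, cc_E4, cc_E6, cc_tt, cc_nat, cc_six, hA, hB]
    ring
  have hV0 : constantCoeff V = 0 := by
    rw [hV]
    simp only [map_sub, map_mul, map_add, map_one, map_pow, cc_E4, cc_E6, cc_tt, cc_nat, cc_six,
      hA, hB]
    ring
  -- first coefficients
  set a := coeff 1 A with ha
  set b := coeff 1 B with hb
  have e1 : (1 + n : ℝ) * a = (6 * n - 1) / 12 * (a - 24) + b := by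
    have := congrArg (coeff 1) h1
    simp only [map_add, coeff_one_mul', map_mul, map_sub, map_one, cc_tt, cc_nat, cc_six, hA, cc_E2,
      c1_E2, c1_tt, c1_nat, c1_six, c1_one, coeff_th, ← ha, ← hb] at this
    push_cast at this
    linear_combination this
  have e2 : (1 + n : ℝ) * b = (6 * n + 1) / 12 * (b - 24 * ((6 * n + 1) / 12)) +
      (6 * n - 1) * (6 * n + 1) / 144 * (a + 240) := by
    have := congrArg (coeff 1) h2
    simp only [map_add, coeff_one_mul', map_mul, map_sub, map_one, pow_two, cc_tt, cc_nat,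
      cc_six, hA, hB, cc_E2, cc_E4, c1_E4,
      c1_E2, c1_tt, c1_nat, c1_six, c1_one, coeff_th, ← ha, ← hb] at this
    push_cast at this
    linear_combination this
  have e3 : (n + 1 : ℝ) * a = 48 * n ^ 2 - 12 * n := by
    linear_combination (6 * (n : ℝ) + 11) / 12 * e1 + e2
  have hn1 : (n + 1 : ℝ) ≠ 0 := by positivity
  have h61 : (6 * n + 1 : ℝ) ≠ 0 := by positivity
  have h65 : (6 * n + 5 : ℝ) ≠ 0 := by positivity
  have hb' : b = a * (6 * n + 13) / 12 + 2 * (6 * n - 1) := by linear_combination -e1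
  have ha' : a = (48 * n ^ 2 - 12 * n) / (n + 1) := by
    rw [eq_div_iff hn1]; linear_combination e3
  have hU1 : coeff 1 U = 12 * (6 * n + 1) * (6 * n + 5) / (n + 1) := by
    rw [hU]
    simp only [map_add, coeff_one_mul', map_mul, map_sub, map_one, cc_tt, cc_nat, cc_six, hA, hB,
      cc_E4, cc_E6, c1_E4, c1_E6, c1_tt, c1_nat, c1_six, c1_one, ← ha, ← hb]
    rw [hb', ha']
    field_simp
    ring
  have hV1 : coeff 1 V = (6 * n + 5) / 12 * (12 * (6 * n + 1) * (6 * n + 7) / (n + 1)) := by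
    rw [hV]
    simp only [map_add, coeff_one_mul', map_mul, map_sub, map_one, pow_two, cc_tt, cc_nat,
      cc_six, hA, hB, cc_E4, cc_E6, c1_E4, c1_E6, c1_tt, c1_nat, c1_six, c1_one, c5, d5, ← ha, ← hb]
    rw [hb', ha']
    field_simp
    ring
  set α : ℝ := (n + 1) / (12 * (6 * n + 1) * (6 * n + 5)) with hα
  have XA : X * (C α * sh U) = C α * U := by
    have := X_sh hU0
    linear_combination (C α) * this
  have XB : X * (C α * sh V) = C α * V := by
    have := X_sh hV0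
    linear_combination (C α) * this
  refine ⟨α, C α * sh U, C α * sh V, ⟨?_, ?_⟩, ?_, ?_, XA, XB⟩
  · apply X_cancel
    have e4 : th (X * (C α * sh U)) = X * (C α * sh U) + X * th (C α * sh U) := by
      rw [th_mul, th_X]
    have e5 : X * (th (C α * sh U) + ((n + 1 : ℕ) : ℝ⟦X⟧) * (C α * sh U)) =
        th (X * (C α * sh U)) + (n : ℝ⟦X⟧) * (X * (C α * sh U)) := by
      rw [e4]; push_cast; ring
    rw [e5, XA]
    have e6 : X * ((6 * ((n + 1 : ℕ) : ℝ⟦X⟧) - 1) * tt * R.E2 * (C α * sh U) + C α * sh V) =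
        (6 * (n : ℝ⟦X⟧) + 5) * tt * R.E2 * (X * (C α * sh U)) + X * (C α * sh V) := by
      push_cast; ring
    rw [e6, XA, XB, th_smul]
    have e7 : th U = th R.E4 * B + R.E4 * th B - (6 * n + 1) * tt * (th R.E6 * A + R.E6 * th A) := by
      have hz : th ((6 * n + 1) * tt) = 0 := by
        have : ((6 * n + 1) * tt : ℝ⟦X⟧) = C ((6 * (n : ℝ) + 1) / 12) := by
          rw [tt, ← map_natCast (C (R := ℝ)), ← map_ofNat C 6, ← map_one (C (R := ℝ)), ← map_mul,
            ← map_add, ← map_mul]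
          congr 1; ring
        rw [this]
        ext m
        rw [coeff_th, coeff_C]
        split_ifs with h0
        · subst h0; simp
        · simp
      rw [hU, th_sub, th_mul, th_mul ((6 * n + 1) * tt), th_mul R.E6 A, hz]
      ring
    rw [e7, th_E4, th_E6, hU, hV]
    linear_combination (C α * R.E4) * h2 - (C α * (6 * n + 1) * tt * R.E6) * h1
  · apply X_cancel
    have e4 : th (X * (C α * sh V)) = X * (C α * sh V) + X * th (C α * sh V) := by
      rw [th_mul, th_X]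
    have e5 : X * (th (C α * sh V) + ((n + 1 : ℕ) : ℝ⟦X⟧) * (C α * sh V)) =
        th (X * (C α * sh V)) + (n : ℝ⟦X⟧) * (X * (C α * sh V)) := by
      rw [e4]; push_cast; ring
    rw [e5, XB]
    have e6 : X * ((6 * ((n + 1 : ℕ) : ℝ⟦X⟧) + 1) * tt * R.E2 * (C α * sh V) +
        (6 * ((n + 1 : ℕ) : ℝ⟦X⟧) - 1) * (6 * ((n + 1 : ℕ) : ℝ⟦X⟧) + 1) * tt ^ 2 * R.E4 *
          (C α * sh U)) =
        (6 * (n : ℝ⟦X⟧) + 7) * tt * R.E2 * (X * (C α * sh V)) +
          (6 * (n : ℝ⟦X⟧) + 5) * (6 * (n : ℝ⟦X⟧) + 7) * tt ^ 2 * R.E4 * (X * (C α * sh U)) := by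
      push_cast; ring
    rw [e6, XA, XB, th_smul]
    have e7 : th V = (6 * n + 5) * tt * ((6 * n + 1) * tt * (2 * R.E4 * th R.E4 * A +
        R.E4 ^ 2 * th A) - (th R.E6 * B + R.E6 * th B)) := by
      have hz : ∀ r : ℝ, th (C r) = 0 := by
        intro r
        ext m
        rw [coeff_th, coeff_C]
        split_ifs with h0
        · subst h0; simp
        · simp
      have c1' : ((6 * n + 1) * tt : ℝ⟦X⟧) = C ((6 * (n : ℝ) + 1) / 12) := by
        rw [tt, ← map_natCast (C (R := ℝ)), ← map_ofNat C 6, ← map_one (C (R := ℝ)), ← map_mul,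
          ← map_add, ← map_mul]
        congr 1; ring
      have c5' : ((6 * n + 5) * tt : ℝ⟦X⟧) = C ((6 * (n : ℝ) + 5) / 12) := by
        rw [tt, ← map_natCast (C (R := ℝ)), ← map_ofNat C 6, ← map_ofNat C 5, ← map_mul,
          ← map_add, ← map_mul]
        congr 1; ring
      rw [hV, th_mul ((6 * n + 5) * tt), th_sub, th_mul ((6 * n + 1) * tt), th_mul (R.E4 ^ 2) A,
        th_mul R.E6 B, th_pow2, c1', c5', hz, hz]
      ring
    rw [e7, th_E4, th_E6, hU, hV]
    linear_combination (C α * (6 * n + 5) * tt) * ((6 * n + 1) * tt * R.E4 ^ 2 * h1 - R.E6 * h2)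
  · rw [map_mul, constantCoeff_C, cc_sh, hU1, hα]
    field_simp
  · rw [map_mul, constantCoeff_C, cc_sh, hV1, hα]
    push_cast
    field_simp
    ring

end Pool.Agent.Q17.Ext
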