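import Mathlib
import Pool.Agent.Q17.Ext.Formal

/-!
# Extremal quasimodular forms of depth one: existence and uniqueness
-/

set_option autoImplicit false

open UpperHalfPlane hiding I
open Real Complex Filter Topology Derivative EisensteinSeries ModularForm MatrixGroups Function
open scoped Manifold MatrixGroups ModularForm PowerSeries

namespace Pool.Agent.Q17.Ext

open Pool.Agent.Q17.Mil (HS E2p hs_E2 hs_form HS.mul HS.add HS.smul HS.sub HS.D HS.eq_q coeff_X_deriv)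
open Pool.Agent.Q17 PowerSeries

/-- `p` is the `q`-expansion of a quasimodular form of weight `k` and depth at most one -/
def QM (k : ℤ) (p : ℂ⟦X⟧) : Prop :=
  ∃ (f : ModularForm 𝒮ℒ k) (g : ModularForm 𝒮ℒ (k - 2)),
    p = qExpansion 1 f + E2p * qExpansion 1 g

theorem q_add {k : ℤ} (f f' : ModularForm 𝒮ℒ k) :
    qExpansion 1 ⇑(f + f') = qExpansion 1 ⇑f + qExpansion 1 ⇑f' := by
  rw [FunLike.coe_add, ModularForm.qExpansion_add one_pos one_mem_strictPeriods_SL]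

theorem q_smul {k : ℤ} (c : ℂ) (f : ModularForm 𝒮ℒ k) :
    qExpansion 1 ⇑(c • f) = C c * qExpansion 1 ⇑f := by
  rw [FunLike.coe_smul, ModularForm.qExpansion_smul one_pos one_mem_strictPeriods_SL,
    smul_eq_C_mul]

theorem QM.cast {k k' : ℤ} {p : ℂ⟦X⟧} (h : QM k p) (hk : k = k') : QM k' p := hk ▸ h

theorem QM.add {k : ℤ} {p p' : ℂ⟦X⟧} (h : QM k p) (h' : QM k p') : QM k (p + p') := by
  obtain ⟨f, g, rfl⟩ := h
  obtain ⟨f', g', rfl⟩ := h'
  refine ⟨f + f', g + g', ?_⟩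
  rw [FunLike.coe_add, ModularForm.qExpansion_add one_pos one_mem_strictPeriods_SL,
    FunLike.coe_add, ModularForm.qExpansion_add one_pos one_mem_strictPeriods_SL]
  ring

theorem QM.smul {k : ℤ} {p : ℂ⟦X⟧} (c : ℂ) (h : QM k p) : QM k (C c * p) := by
  obtain ⟨f, g, rfl⟩ := h
  refine ⟨c • f, c • g, ?_⟩
  rw [FunLike.coe_smul, ModularForm.qExpansion_smul one_pos one_mem_strictPeriods_SL,
    FunLike.coe_smul, ModularForm.qExpansion_smul one_pos one_mem_strictPeriods_SL,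
    smul_eq_C_mul, smul_eq_C_mul]
  ring

theorem QM.mul {j k : ℤ} {p : ℂ⟦X⟧} (u : ModularForm 𝒮ℒ j) (h : QM k p) :
    QM (j + k) (qExpansion 1 u * p) := by
  obtain ⟨f, g, rfl⟩ := h
  refine ⟨u.mul f, ModularForm.mcast (by ring) (u.mul g), ?_⟩
  rw [ModularForm.qExpansion_mcast, ModularForm.qExpansion_mul one_pos one_mem_strictPeriods_SL,
    ModularForm.qExpansion_mul one_pos one_mem_strictPeriods_SL]
  ring

theorem QM.E4 {k : ℤ} {p : ℂ⟦X⟧} (h : QM k p) : QM (k + 4) (Mil.R.cm Mil.R.E4 * p) := by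
  have := h.mul E₄
  rw [Mil.R.q_E4] at this
  exact this.cast (by ring)

theorem QM.E6 {k : ℤ} {p : ℂ⟦X⟧} (h : QM k p) : QM (k + 6) (Mil.R.cm Mil.R.E6 * p) := by
  have := h.mul E₆
  rw [Mil.R.q_E6] at this
  exact this.cast (by ring)

theorem QM.E6pow {k : ℤ} {p : ℂ⟦X⟧} (h : QM k p) (j : ℕ) :
    QM (k + 6 * j) (Mil.R.cm Mil.R.E6 ^ j * p) := by
  induction j with
  | zero => simpa using h
  | succ j ih =>
    have := ih.E6
    rw [pow_succ]
    have e : Mil.R.cm Mil.R.E6 * (Mil.R.cm Mil.R.E6 ^ j * p) =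
        Mil.R.cm Mil.R.E6 ^ j * Mil.R.cm Mil.R.E6 * p := by ring
    rw [e] at this
    exact this.cast (by push_cast; ring)

theorem cmC (r : ℝ) : Mil.R.cm (C r) = C ((r : ℝ) : ℂ) := by
  rw [PowerSeries.map_C]; rfl

theorem QM_one : QM 0 (1 : ℂ⟦X⟧) := by
  refine ⟨1, 0, ?_⟩
  have h1 : qExpansion 1 (1 : ModularForm 𝒮ℒ 0) = 1 := qExpansion_one 1
  have h2 : qExpansion 1 (0 : ModularForm 𝒮ℒ (0 - 2)) = 0 := qExpansion_zero 1
  rw [h1, h2]; ring

theorem QM_E2 : QM 2 E2p := by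
  refine ⟨0, ModularForm.mcast (by norm_num) (1 : ModularForm 𝒮ℒ 0), ?_⟩
  have h2 : qExpansion 1 (0 : ModularForm 𝒮ℒ 2) = 0 := qExpansion_zero 1
  have h1 : qExpansion 1 (1 : ModularForm 𝒮ℒ 0) = 1 := qExpansion_one 1
  rw [ModularForm.qExpansion_mcast, h1, h2]; ring

/-- **The sequence of the solutions.** -/
theorem seq (n : ℕ) : ∃ A B : ℝ⟦X⟧, OD n A B ∧ constantCoeff A = 1 ∧
    constantCoeff B = (6 * n + 1) / 12 ∧ QM (6 * n) (Mil.R.cm (X ^ n * A)) ∧
    QM (6 * n + 2) (Mil.R.cm (X ^ n * B)) := by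
  induction n with
  | zero =>
    refine ⟨1, tt * Mil.R.E2, ⟨?_, ?_⟩, by simp, ?_, ?_, ?_⟩
    · rw [Mil.R.th_one]; push_cast; ring
    · have hz : Mil.R.th tt = 0 := by
        ext m
        rw [Mil.R.coeff_th, tt, coeff_C]
        split_ifs with h0
        · subst h0; simp
        · simp
      rw [Mil.R.th_mul, hz, th_E2]
      push_cast
      ring
    · rw [map_mul, cc_tt, cc_E2]; norm_num
    · simpa using QM_one
    · have := QM_E2.smul (1 / 12 : ℂ)
      rw [Mil.R.q_E2] at this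
      have e : Mil.R.cm (X ^ 0 * (tt * Mil.R.E2)) = C (1 / 12 : ℂ) * Mil.R.cm Mil.R.E2 := by
        rw [pow_zero, one_mul, map_mul, tt, PowerSeries.map_C]
        congr 2
        simp
      rw [e]
      exact this.cast (by norm_num)
  | succ n ih =>
    obtain ⟨A, B, h1, h2, h3, h4, h5⟩ := ih
    obtain ⟨α, A', B', k1, k2, k3, k4, k5⟩ := raise n A B h1 h2 h3
    have ct : ∀ r s : ℝ, (C ((r : ℝ) * s)) = C r * C s := fun r s => map_mul _ _ _
    refine ⟨A', B', k1, k2, k3, ?_, ?_⟩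
    · have e : Mil.R.cm (X ^ (n + 1) * A') =
          C (α : ℂ) * (Mil.R.cm Mil.R.E4 * Mil.R.cm (X ^ n * B)) +
          C ((-(α * ((6 * n + 1) * (1 / 12))) : ℝ) : ℂ) *
            (Mil.R.cm Mil.R.E6 * Mil.R.cm (X ^ n * A)) := by
        have e1 : (C (α : ℂ)) = Mil.R.cm (C α) := (cmC _).symm
        have e2 : (C ((-(α * ((6 * n + 1) * (1 / 12))) : ℝ) : ℂ)) =
            Mil.R.cm (C (-(α * ((6 * n + 1) * (1 / 12))))) := (cmC _).symm
        rw [e1, e2, ← map_mul, ← map_mul, ← map_mul, ← map_mul, ← map_add]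
        congr 1
        have e3 : (C (-(α * ((6 * (n : ℝ) + 1) * (1 / 12))))) =
            -(C α * ((6 * (n : ℝ⟦X⟧) + 1) * tt)) := by
          rw [tt, map_neg, map_mul, map_mul, map_add, map_mul, map_natCast, map_one, map_ofNat]
        rw [e3]
        linear_combination X ^ n * k4
      rw [e]
      exact ((h5.E4.smul _).cast (by push_cast; ring)).add ((h4.E6.smul _).cast (by push_cast; ring))
    · have e : Mil.R.cm (X ^ (n + 1) * B') =
          C ((α * ((6 * n + 5) * (1 / 12)) * ((6 * n + 1) * (1 / 12)) : ℝ) : ℂ) *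
            (Mil.R.cm Mil.R.E4 * (Mil.R.cm Mil.R.E4 * Mil.R.cm (X ^ n * A))) +
          C ((-(α * ((6 * n + 5) * (1 / 12))) : ℝ) : ℂ) *
            (Mil.R.cm Mil.R.E6 * Mil.R.cm (X ^ n * B)) := by
        have e1 : (C ((α * ((6 * n + 5) * (1 / 12)) * ((6 * n + 1) * (1 / 12)) : ℝ) : ℂ)) =
            Mil.R.cm (C (α * ((6 * n + 5) * (1 / 12)) * ((6 * n + 1) * (1 / 12)))) :=
          (cmC _).symm
        have e2 : (C ((-(α * ((6 * n + 5) * (1 / 12))) : ℝ) : ℂ)) =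
            Mil.R.cm (C (-(α * ((6 * n + 5) * (1 / 12))))) := (cmC _).symm
        rw [e1, e2, ← map_mul, ← map_mul, ← map_mul, ← map_mul, ← map_mul, ← map_add]
        congr 1
        have e3 : (C (-(α * ((6 * (n : ℝ) + 5) * (1 / 12))))) =
            -(C α * ((6 * (n : ℝ⟦X⟧) + 5) * tt)) := by
          rw [tt, map_neg, map_mul, map_mul, map_add, map_mul, map_natCast, map_ofNat, map_ofNat]
        have e4 : (C (α * ((6 * (n : ℝ) + 5) * (1 / 12)) * ((6 * (n : ℝ) + 1) * (1 / 12)))) =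
            C α * ((6 * (n : ℝ⟦X⟧) + 5) * tt) * ((6 * (n : ℝ⟦X⟧) + 1) * tt) := by
          rw [tt, map_mul, map_mul, map_mul, map_mul, map_add, map_add, map_mul, map_natCast,
            map_one, map_ofNat, map_ofNat]
        rw [e3, e4]
        linear_combination X ^ n * k5
      rw [e]
      exact ((h4.E4.E4.smul _).cast (by push_cast; ring)).add
        ((h5.E6.smul _).cast (by push_cast; ring))

/-! ### Uniqueness -/

/-- the coefficients of the `q`-expansion as a linear map -/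
noncomputable def TT (k : ℤ) (d : ℕ) :
    (ModularForm 𝒮ℒ k × ModularForm 𝒮ℒ (k - 2)) →ₗ[ℂ] (Fin d → ℂ) where
  toFun v := fun i => coeff (i : ℕ) (qExpansion 1 v.1 + E2p * qExpansion 1 v.2)
  map_add' v w := by
    ext i
    simp only [Prod.fst_add, Prod.snd_add, Pi.add_apply]
    rw [FunLike.coe_add, ModularForm.qExpansion_add one_pos one_mem_strictPeriods_SL,
      FunLike.coe_add, ModularForm.qExpansion_add one_pos one_mem_strictPeriods_SL, ← map_add]
    congr 1; ring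
  map_smul' c v := by
    ext i
    simp only [Prod.smul_fst, Prod.smul_snd, Pi.smul_apply, RingHom.id_apply, smul_eq_mul]
    rw [FunLike.coe_smul, ModularForm.qExpansion_smul one_pos one_mem_strictPeriods_SL,
      FunLike.coe_smul, ModularForm.qExpansion_smul one_pos one_mem_strictPeriods_SL,
      smul_eq_C_mul, smul_eq_C_mul, ← coeff_C_mul]
    congr 1; ring

theorem TT_surj (k : ℤ) (d : ℕ) (hb : ∀ i < d, ∃ p, QM k p ∧ (∀ j < i, coeff j p = 0) ∧
    coeff i p ≠ 0) : Surjective (TT k d) := by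
  have key : ∀ m ≤ d, ∀ c : ℕ → ℂ, ∃ v : ModularForm 𝒮ℒ k × ModularForm 𝒮ℒ (k - 2),
      ∀ j < m, coeff j (qExpansion 1 v.1 + E2p * qExpansion 1 v.2) = c j := by
    intro m
    induction m with
    | zero => exact fun _ c => ⟨0, fun j hj => absurd hj (Nat.not_lt_zero j)⟩
    | succ m ih =>
      intro hm c
      obtain ⟨v, hv⟩ := ih (by omega) c
      obtain ⟨p, ⟨f, g, hp⟩, hp0, hp1⟩ := hb m (by omega)
      set q := qExpansion 1 v.1 + E2p * qExpansion 1 v.2 with hq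
      set a := (c m - coeff m q) / coeff m p with ha
      refine ⟨(v.1 + a • f, v.2 + a • g), fun j hj => ?_⟩
      have e : qExpansion 1 ⇑(v.1 + a • f) + E2p * qExpansion 1 ⇑(v.2 + a • g) = q + C a * p := by
        rw [q_add, q_add, q_smul, q_smul, hq, hp]
        ring
      simp only
      rw [e, map_add, coeff_C_mul]
      rcases Nat.lt_succ_iff_lt_or_eq.1 hj with h | h
      · rw [hp0 j h, mul_zero, add_zero]; exact hv j h
      · subst h
        rw [ha, div_mul_cancel₀ _ hp1]; ring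
  intro c
  obtain ⟨v, hv⟩ := key d le_rfl (fun j => if h : j < d then c ⟨j, h⟩ else 0)
  refine ⟨v, ?_⟩
  ext i
  have := hv i i.2
  rw [dif_pos i.2] at this
  exact this

theorem TT_inj (k : ℤ) (d : ℕ)
    (hd : Module.finrank ℂ (ModularForm 𝒮ℒ k) + Module.finrank ℂ (ModularForm 𝒮ℒ (k - 2)) = d)
    (hb : ∀ i < d, ∃ p, QM k p ∧ (∀ j < i, coeff j p = 0) ∧ coeff i p ≠ 0) :
    Injective (TT k d) := by
  refine (LinearMap.injective_iff_surjective_of_finrank_eq_finrank ?_).2 (TT_surj k d hb)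
  rw [Module.finrank_prod, Module.finrank_fin_fun, hd]

theorem fdim (k : ℕ) (hk : Even k) : Module.finrank ℂ (ModularForm 𝒮ℒ (k : ℤ)) =
    if k % 12 = 2 then k / 12 else k / 12 + 1 := by
  apply Module.finrank_eq_of_rank_eq
  rw [dimension_level_one k hk]
  by_cases h : k % 12 = 2
  · have h' : k ≡ 2 [MOD 12] := h
    rw [if_pos h', if_pos h]
  · have h' : ¬ k ≡ 2 [MOD 12] := h
    rw [if_neg h', if_neg h]

theorem fdim' (k : ℤ) (j : ℕ) (hkj : k = j) (hj : Even j) :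
    Module.finrank ℂ (ModularForm 𝒮ℒ k) = if j % 12 = 2 then j / 12 else j / 12 + 1 := by
  subst hkj; exact fdim j hj

/-- the dimension of the space of quasimodular forms -/
theorem dimQ (n e : ℕ) (hn : 1 ≤ n) (he : e = 0 ∨ e = 2 ∨ e = 4) :
    Module.finrank ℂ (ModularForm 𝒮ℒ (6 * n + e : ℤ)) +
      Module.finrank ℂ (ModularForm 𝒮ℒ ((6 * n + e : ℤ) - 2)) = n + 1 := by
  rw [fdim' _ (6 * n + e) (by push_cast; ring) (by
      rw [Nat.even_iff]; omega),
    fdim' _ (6 * n + e - 2) (by omega) (by rw [Nat.even_iff]; omega)]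
  split_ifs <;> omega

theorem coeff_XA (f : ℂ⟦X⟧) (i : ℕ) (g : ℝ⟦X⟧) : (∀ j < i, coeff j (f * Mil.R.cm (X ^ i * g)) = 0) ∧
    coeff i (f * Mil.R.cm (X ^ i * g)) = constantCoeff f * ((constantCoeff g : ℝ) : ℂ) := by
  have e : f * Mil.R.cm (X ^ i * g) = (f * Mil.R.cm g) * X ^ i := by
    rw [map_mul, map_pow, PowerSeries.map_X]; ring
  rw [e]
  constructor
  · intro j hj
    rw [coeff_mul_X_pow', if_neg (by omega)]
  · rw [coeff_mul_X_pow', if_pos le_rfl, Nat.sub_self, coeff_zero_eq_constantCoeff_apply, map_mul]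
    congr 1

theorem cc_cm (g : ℝ⟦X⟧) : constantCoeff (Mil.R.cm g) = ((constantCoeff g : ℝ) : ℂ) := rfl

/-- **uniqueness** -/
theorem uniq (n e : ℕ) (hn : 1 ≤ n) (he : e = 0 ∨ e = 2 ∨ e = 4) :
    Injective (TT (6 * n + e : ℤ) (n + 1)) := by
  refine TT_inj _ _ (dimQ n e hn he) fun i hi => ?_
  obtain ⟨A, B, h1, h2, h3, h4, h5⟩ := seq i
  have hE6 : constantCoeff (Mil.R.cm Mil.R.E6 ^ (n - i)) = (1 : ℂ) := by
    rw [map_pow, cc_cm, Mil.R.cc_E6]; simp
  rcases he with rfl | rfl | rfl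
  · refine ⟨_, (h4.E6pow (n - i)).cast (by push_cast [Nat.cast_sub (Nat.lt_succ_iff.1 hi)]; ring),
      (coeff_XA _ _ _).1, ?_⟩
    rw [(coeff_XA _ _ _).2, hE6, h2]; simp
  · refine ⟨_, (h5.E6pow (n - i)).cast (by push_cast [Nat.cast_sub (Nat.lt_succ_iff.1 hi)]; ring),
      (coeff_XA _ _ _).1, ?_⟩
    rw [(coeff_XA _ _ _).2, hE6, h3, one_mul]
    have : ((6 * i + 1) / 12 : ℝ) ≠ 0 := by positivity
    exact_mod_cast this
  · have e : Mil.R.cm Mil.R.E6 ^ (n - i) * (Mil.R.cm Mil.R.E4 * Mil.R.cm (X ^ i * A)) =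
        (Mil.R.cm Mil.R.E6 ^ (n - i) * Mil.R.cm Mil.R.E4) * Mil.R.cm (X ^ i * A) := by ring
    refine ⟨(Mil.R.cm Mil.R.E6 ^ (n - i) * Mil.R.cm Mil.R.E4) * Mil.R.cm (X ^ i * A), ?_,
      (coeff_XA _ _ _).1, ?_⟩
    · rw [← e]
      exact (h4.E4.E6pow (n - i)).cast (by push_cast [Nat.cast_sub (Nat.lt_succ_iff.1 hi)]; ring)
    · rw [(coeff_XA _ _ _).2, map_mul, hE6, h2, cc_cm, Mil.R.cc_E4]; simp

end Pool.Agent.Q17.Ext
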