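import Mathlib
import Pool.Agent.Q17.Ext.QM
import Pool.Agent.Q17.Mil.Imag

/-!
# Evaluation of `q`-series on the imaginary axis
-/

set_option autoImplicit false

open UpperHalfPlane hiding I
open Real Complex Filter Topology Derivative EisensteinSeries ModularForm MatrixGroups Function
open scoped Manifold MatrixGroups ModularForm PowerSeries

namespace Pool.Agent.Q17.Ext

open Pool.Agent.Q17.Mil (HS E2p hs_E2 hs_form HS.mul HS.add HS.smul HS.sub HS.D HS.eq_q coeff_X_deriv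
  rr rr_pos rr_lt_one rr_anti)
open Pool.Agent.Q17

/-- the series converges in the unit disc -/
def Conv (f : ℝ⟦X⟧) : Prop := ∀ s : ℝ, 0 < s → Summable fun n => |PowerSeries.coeff n f| * rr s ^ n

/-- the value at `i s` -/
noncomputable def ev (f : ℝ⟦X⟧) (s : ℝ) : ℝ := ∑' n, PowerSeries.coeff n f * rr s ^ n

theorem Conv.sum {f : ℝ⟦X⟧} (h : Conv f) {s : ℝ} (hs : 0 < s) :
    Summable fun n => PowerSeries.coeff n f * rr s ^ n := by
  refine Summable.of_norm ?_
  refine (h s hs).congr fun n => ?_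
  rw [norm_mul, norm_pow, Real.norm_eq_abs, Real.norm_of_nonneg (rr_pos s).le]

theorem Conv.nsum {f : ℝ⟦X⟧} (h : Conv f) {s : ℝ} (hs : 0 < s) :
    Summable fun n => ‖PowerSeries.coeff n f * rr s ^ n‖ := by
  refine (h s hs).congr fun n => ?_
  rw [norm_mul, norm_pow, Real.norm_eq_abs, Real.norm_of_nonneg (rr_pos s).le]

theorem ev_add {f g : ℝ⟦X⟧} (hf : Conv f) (hg : Conv g) {s : ℝ} (hs : 0 < s) :
    ev (f + g) s = ev f s + ev g s := by
  rw [ev, ev, ev, ← (hf.sum hs).tsum_add (hg.sum hs)]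
  refine tsum_congr fun n => ?_
  rw [map_add]; ring

theorem ev_sub {f g : ℝ⟦X⟧} (hf : Conv f) (hg : Conv g) {s : ℝ} (hs : 0 < s) :
    ev (f - g) s = ev f s - ev g s := by
  rw [ev, ev, ev, ← (hf.sum hs).tsum_sub (hg.sum hs)]
  refine tsum_congr fun n => ?_
  rw [map_sub]; ring

theorem Conv.add {f g : ℝ⟦X⟧} (hf : Conv f) (hg : Conv g) : Conv (f + g) := by
  intro s hs
  refine Summable.of_nonneg_of_le (fun n => by have := (rr_pos s).le; positivity) (fun n => ?_)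
    ((hf s hs).add (hg s hs))
  rw [map_add, ← add_mul]
  have := (rr_pos s).le
  gcongr
  exact abs_add_le _ _

theorem Conv.smul {f : ℝ⟦X⟧} (c : ℝ) (hf : Conv f) : Conv (PowerSeries.C c * f) := by
  intro s hs
  refine ((hf s hs).mul_left |c|).congr fun n => ?_
  rw [PowerSeries.coeff_C_mul, abs_mul]; ring

theorem ev_smul (c : ℝ) (f : ℝ⟦X⟧) (s : ℝ) : ev (PowerSeries.C c * f) s = c * ev f s := by
  rw [ev, ev, ← tsum_mul_left]
  refine tsum_congr fun n => ?_
  rw [PowerSeries.coeff_C_mul]; ring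

theorem Conv.sub {f g : ℝ⟦X⟧} (hf : Conv f) (hg : Conv g) : Conv (f - g) := by
  have := hf.add (hg.smul (-1))
  rwa [map_neg, map_one, neg_one_mul, ← sub_eq_add_neg] at this

theorem ev_mul {f g : ℝ⟦X⟧} (hf : Conv f) (hg : Conv g) {s : ℝ} (hs : 0 < s) :
    ev (f * g) s = ev f s * ev g s := by
  rw [ev, ev, ev, tsum_mul_tsum_eq_tsum_sum_antidiagonal_of_summable_norm (hf.nsum hs) (hg.nsum hs)]
  refine tsum_congr fun n => ?_
  rw [PowerSeries.coeff_mul, Finset.sum_mul]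
  refine Finset.sum_congr rfl fun x hx => ?_
  have hx' : x.1 + x.2 = n := by simpa using hx
  rw [← hx', pow_add]
  ring

theorem Conv.mul {f g : ℝ⟦X⟧} (hf : Conv f) (hg : Conv g) : Conv (f * g) := by
  intro s hs
  have h := (summable_norm_sum_mul_antidiagonal_of_summable_norm (hf.nsum hs) (hg.nsum hs))
  refine h.congr fun n => ?_
  rw [PowerSeries.coeff_mul, ← abs_of_nonneg (pow_nonneg (rr_pos s).le n), ← abs_mul,
    Real.norm_eq_abs, Finset.sum_mul]
  congr 1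
  refine Finset.sum_congr rfl fun x hx => ?_
  have hx' : x.1 + x.2 = n := by simpa using hx
  rw [← hx', pow_add]
  ring

theorem Conv.one : Conv 1 := by
  intro s hs
  refine summable_of_ne_finset_zero (s := {0}) fun n hn => ?_
  rw [PowerSeries.coeff_one, if_neg (by simpa using hn)]; simp

theorem Conv.pow {f : ℝ⟦X⟧} (hf : Conv f) (n : ℕ) : Conv (f ^ n) := by
  induction n with
  | zero => rw [pow_zero]; exact Conv.one
  | succ n ih => rw [pow_succ]; exact ih.mul hf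

theorem ev_one {s : ℝ} : ev 1 s = 1 := by
  rw [ev, tsum_eq_single 0]
  · simp
  · intro n hn
    rw [PowerSeries.coeff_one, if_neg hn, zero_mul]

theorem ev_pow {f : ℝ⟦X⟧} (hf : Conv f) {s : ℝ} (hs : 0 < s) (n : ℕ) :
    ev (f ^ n) s = ev f s ^ n := by
  induction n with
  | zero => rw [pow_zero, pow_zero, ev_one]
  | succ n ih => rw [pow_succ, ev_mul (hf.pow n) hf hs, ih, pow_succ]

/-- summability of the derivative -/
theorem Conv.n_sum {f : ℝ⟦X⟧} (hf : Conv f) {s : ℝ} (hs : 0 < s) :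
    Summable fun n : ℕ => (n : ℝ) * (|PowerSeries.coeff n f| * rr s ^ n) := by
  have h1 := hf (s / 2) (by linarith)
  set M : ℝ := ∑' n, |PowerSeries.coeff n f| * rr (s / 2) ^ n with hM
  have hr : rr s / rr (s / 2) < 1 := by
    rw [div_lt_one (rr_pos _)]; exact rr_anti (by linarith)
  have hr0 : 0 ≤ rr s / rr (s / 2) := div_nonneg (rr_pos _).le (rr_pos _).le
  have h2 : Summable fun n : ℕ => ((n : ℝ) ^ 1 * (rr s / rr (s / 2)) ^ n) :=
    summable_pow_mul_geometric_of_norm_lt_one 1 (by rwa [Real.norm_of_nonneg hr0])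
  refine Summable.of_nonneg_of_le (fun n => by have := (rr_pos s).le; positivity) (fun n => ?_)
    (h2.mul_left M)
  have h3 : |PowerSeries.coeff n f| * rr (s / 2) ^ n ≤ M :=
    h1.le_tsum n fun j _ => by have := (rr_pos (s / 2)).le; positivity
  have h4 : rr s ^ n = rr (s / 2) ^ n * (rr s / rr (s / 2)) ^ n := by
    rw [← mul_pow, mul_div_cancel₀ _ (rr_pos _).ne']
  rw [h4, pow_one]
  calc (n : ℝ) * (|PowerSeries.coeff n f| * (rr (s / 2) ^ n * (rr s / rr (s / 2)) ^ n))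
      = (|PowerSeries.coeff n f| * rr (s / 2) ^ n) * (n * (rr s / rr (s / 2)) ^ n) := by ring
    _ ≤ M * (n * (rr s / rr (s / 2)) ^ n) := by
        refine mul_le_mul_of_nonneg_right h3 ?_
        positivity

theorem Conv.th {f : ℝ⟦X⟧} (hf : Conv f) : Conv (Mil.R.th f) := by
  intro s hs
  refine (hf.n_sum hs).congr fun n => ?_
  rw [Mil.R.coeff_th, abs_mul, Nat.abs_cast]; ring

theorem hasDerivAt_rr (s : ℝ) : HasDerivAt rr (-(2 * π) * rr s) s := by
  unfold rr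
  have h1 : HasDerivAt (fun t : ℝ => -(2 * π * t)) (-(2 * π)) s := by
    have := (hasDerivAt_id s).const_mul (-(2 * π))
    simpa [neg_mul] using this
  have h2 := h1.exp
  refine h2.congr_deriv ?_
  ring

/-- **the derivative** -/
theorem ev_deriv {f : ℝ⟦X⟧} (hf : Conv f) {s : ℝ} (hs : 0 < s) :
    HasDerivAt (ev f) (-(2 * π) * ev (Mil.R.th f) s) s := by
  have h := hasDerivAt_tsum_of_isPreconnected (𝕜 := ℝ) (F := ℝ)
    (g := fun n s => PowerSeries.coeff n f * rr s ^ n)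
    (g' := fun n s => -(2 * π) * (PowerSeries.coeff n (Mil.R.th f) * rr s ^ n))
    (t := Set.Ioi (s / 2)) (y₀ := s) (y := s)
    (u := fun n : ℕ => 2 * π * ((n : ℝ) * (|PowerSeries.coeff n f| * rr (s / 2) ^ n)))
    ((hf.n_sum (by linarith)).mul_left _) isOpen_Ioi isPreconnected_Ioi ?_ ?_
    (Set.mem_Ioi.2 (by linarith)) (hf.sum hs) (Set.mem_Ioi.2 (by linarith))
  · rw [tsum_mul_left] at h
    exact h
  · intro n y _
    have h1 := ((hasDerivAt_rr y).pow n).const_mul (PowerSeries.coeff n f)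
    refine h1.congr_deriv ?_
    rw [Mil.R.coeff_th]
    cases n with
    | zero => simp
    | succ n =>
      simp only [Nat.add_sub_cancel]
      rw [pow_succ]; ring
  · intro n y hy
    have hy' : s / 2 < y := hy
    rw [Mil.R.coeff_th, norm_mul, norm_mul, norm_mul, norm_pow, Real.norm_eq_abs, Real.norm_eq_abs,
      Real.norm_eq_abs, Real.norm_eq_abs, Nat.abs_cast, abs_neg, abs_of_pos (by positivity),
      abs_of_pos (rr_pos y)]
    have h2 : rr y ^ n ≤ rr (s / 2) ^ n := pow_le_pow_left₀ (rr_pos y).le (rr_anti hy').le n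
    calc 2 * π * (n * |PowerSeries.coeff n f| * rr y ^ n)
        ≤ 2 * π * (n * |PowerSeries.coeff n f| * rr (s / 2) ^ n) := by gcongr
      _ = 2 * π * ((n : ℝ) * (|PowerSeries.coeff n f| * rr (s / 2) ^ n)) := by ring

theorem ev_bound {f : ℝ⟦X⟧} (hf : Conv f) {s : ℝ} (hs : 1 ≤ s) :
    |ev f s| ≤ ∑' n, |PowerSeries.coeff n f| * rr 1 ^ n := by
  have hs0 : 0 < s := by linarith
  have h1 : ‖ev f s‖ ≤ ∑' n, ‖PowerSeries.coeff n f * rr s ^ n‖ := norm_tsum_le_tsum_norm (hf.nsum hs0)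
  rw [Real.norm_eq_abs] at h1
  refine h1.trans (Summable.tsum_le_tsum (fun n => ?_) (hf.nsum hs0) (hf 1 one_pos))
  rw [norm_mul, norm_pow, Real.norm_eq_abs, Real.norm_of_nonneg (rr_pos s).le]
  have : rr s ≤ rr 1 := by
    rcases eq_or_lt_of_le hs with h | h
    · rw [h]
    · exact (rr_anti h).le
  have h0 := (rr_pos s).le
  gcongr

theorem ev_split {f : ℝ⟦X⟧} (hf : Conv f) {s : ℝ} (hs : 0 < s) :
    ev f s = PowerSeries.constantCoeff f + rr s * ev (sh f) s := by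
  rw [ev, (hf.sum hs).tsum_eq_zero_add, pow_zero, mul_one,
    PowerSeries.coeff_zero_eq_constantCoeff_apply, ev, ← tsum_mul_left]
  congr 1
  refine tsum_congr fun n => ?_
  rw [sh, PowerSeries.coeff_mk, pow_succ]; ring

theorem Conv.sh {f : ℝ⟦X⟧} (hf : Conv f) : Conv (sh f) := by
  intro s hs
  have h1 := (summable_nat_add_iff 1).2 (hf s hs)
  refine (h1.mul_left (rr s)⁻¹).congr fun n => ?_
  rw [Ext.sh, PowerSeries.coeff_mk, pow_succ]
  have := (rr_pos s).ne'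
  field_simp

theorem tendsto_rr : Tendsto rr atTop (𝓝 0) := by
  unfold rr
  refine Real.tendsto_exp_atBot.comp ?_
  have h : Tendsto (fun t : ℝ => 2 * π * t) atTop atTop :=
    tendsto_id.const_mul_atTop (by positivity)
  exact tendsto_neg_atTop_atBot.comp h

/-- `s^k F(s) → 0` for a series without constant term -/
theorem tendsto_pow_ev {f : ℝ⟦X⟧} (hf : Conv f) (h0 : PowerSeries.constantCoeff f = 0) (k : ℕ) :
    Tendsto (fun s => s ^ k * ev f s) atTop (𝓝 0) := by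
  set M := ∑' n, |PowerSeries.coeff n (sh f)| * rr 1 ^ n with hM
  have h0' : Tendsto (fun s : ℝ => s ^ k * Real.exp (-(2 * π) * s)) atTop (𝓝 0) := by
    have ht : Tendsto (fun t : ℝ => 2 * π * t) atTop atTop :=
      tendsto_id.const_mul_atTop (by positivity)
    have h2 := ((tendsto_pow_mul_exp_neg_atTop_nhds_zero k).comp ht).const_mul ((2 * π) ^ k)⁻¹
    rw [mul_zero] at h2
    refine h2.congr fun s => ?_
    have : ((2 * π) ^ k : ℝ) ≠ 0 := by positivity
    simp only [Function.comp_apply]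
    rw [mul_pow, show -(2 * π * s) = -(2 * π) * s by ring]
    field_simp
    rw [mul_pow, mul_pow]
  have h1 : Tendsto (fun s : ℝ => M * (s ^ k * Real.exp (-(2 * π) * s))) atTop (𝓝 (M * 0)) :=
    h0'.const_mul M
  rw [mul_zero] at h1
  refine squeeze_zero_norm' ?_ h1
  filter_upwards [eventually_ge_atTop (1 : ℝ)] with s hs
  have hs0 : 0 < s := by linarith
  rw [ev_split hf hs0, h0, zero_add, Real.norm_eq_abs, abs_mul, abs_mul,
    abs_of_nonneg (pow_nonneg hs0.le k), abs_of_pos (rr_pos s)]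
  have h2 := ev_bound hf.sh hs
  have h3 : rr s = Real.exp (-(2 * π) * s) := by rw [rr]; congr 1; ring
  rw [← h3]
  calc s ^ k * (rr s * |ev (Ext.sh f) s|) ≤ s ^ k * (rr s * M) := by
        have := (rr_pos s).le
        gcongr
    _ = M * (s ^ k * rr s) := by ring

theorem tendsto_ev {f : ℝ⟦X⟧} (hf : Conv f) :
    Tendsto (ev f) atTop (𝓝 (PowerSeries.constantCoeff f)) := by
  set M := ∑' n, |PowerSeries.coeff n (sh f)| * rr 1 ^ n with hM
  have h1 : Tendsto (fun s : ℝ => M * rr s) atTop (𝓝 (M * 0)) := tendsto_rr.const_mul M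
  rw [mul_zero] at h1
  rw [← tendsto_sub_nhds_zero_iff]
  refine squeeze_zero_norm' ?_ h1
  filter_upwards [eventually_ge_atTop (1 : ℝ)] with s hs
  have hs0 : 0 < s := by linarith
  rw [ev_split hf hs0, add_sub_cancel_left, Real.norm_eq_abs, abs_mul, abs_of_pos (rr_pos s),
    mul_comm]
  have h2 := ev_bound hf.sh hs
  exact mul_le_mul_of_nonneg_right h2 (rr_pos s).le

theorem ev_pos {f : ℝ⟦X⟧} (hf : Conv f) (hn : ∀ n, 0 ≤ PowerSeries.coeff n f) {m : ℕ}
    (hm : 0 < PowerSeries.coeff m f) {s : ℝ} (hs : 0 < s) : 0 < ev f s := by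
  have := rr_pos s
  exact (hf.sum hs).tsum_pos (fun n => mul_nonneg (hn n) (by positivity)) m (by positivity)

/-! ### The Eisenstein series -/

/-- the point `i s` -/
noncomputable def pt (s : ℝ) (hs : 0 < s) : ℍ := ⟨(s : ℂ) * Complex.I, by simpa using hs⟩

theorem pt_re (s : ℝ) (hs : 0 < s) : (pt s hs).re = 0 := by
  change ((s : ℂ) * Complex.I).re = 0
  simp

theorem pt_im (s : ℝ) (hs : 0 < s) : (pt s hs).im = s := by
  change ((s : ℂ) * Complex.I).im = s
  simp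

theorem pt_coe (s : ℝ) (hs : 0 < s) : ((pt s hs : ℍ) : ℂ) = (s : ℂ) * Complex.I := rfl

theorem qP_pt (s : ℝ) (hs : 0 < s) : Function.Periodic.qParam 1 (pt s hs : ℍ) = ((rr s : ℝ) : ℂ) := by
  rw [Mil.qP_eq, pt_coe, Mil.exp_it]

theorem conv_of_HS {f : ℝ⟦X⟧} {F : ℍ → ℂ} (h : HS (Mil.R.cm f) F) : Conv f := by
  intro s hs
  have h1 := (h (pt s hs)).summable.norm
  refine h1.congr fun n => ?_
  rw [qP_pt, norm_mul, norm_pow, PowerSeries.coeff_map, Complex.norm_real,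
    Real.norm_of_nonneg (rr_pos s).le]
  congr 1
  rw [Complex.coe_algebraMap, Complex.norm_real, Real.norm_eq_abs]

theorem HS_ev {f : ℝ⟦X⟧} {F : ℍ → ℂ} (h : HS (Mil.R.cm f) F) {s : ℝ} (hs : 0 < s) :
    F (pt s hs) = ((ev f s : ℝ) : ℂ) := by
  have h1 := h (pt s hs)
  have h2 : HasSum (fun n => (((PowerSeries.coeff n f * rr s ^ n : ℝ)) : ℂ)) ((ev f s : ℝ) : ℂ) := by
    exact_mod_cast (((conv_of_HS h).sum hs).hasSum)
  refine h1.unique (h2.congr_fun fun n => ?_)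
  rw [qP_pt, PowerSeries.coeff_map]
  push_cast
  rfl

theorem hsE2 : HS (Mil.R.cm Mil.R.E2) EisensteinSeries.E2 := by rw [← Mil.R.q_E2]; exact hs_E2
theorem hsE4 : HS (Mil.R.cm Mil.R.E4) E₄ := by rw [← Mil.R.q_E4]; exact hs_form E₄
theorem hsE6 : HS (Mil.R.cm Mil.R.E6) E₆ := by rw [← Mil.R.q_E6]; exact hs_form E₆

theorem cE2 : Conv Mil.R.E2 := conv_of_HS hsE2
theorem cE4 : Conv Mil.R.E4 := conv_of_HS hsE4
theorem cE6 : Conv Mil.R.E6 := conv_of_HS hsE6

/-- `E_2(is)` -/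
noncomputable abbrev a2 (s : ℝ) : ℝ := ev Mil.R.E2 s
/-- `E_4(is)` -/
noncomputable abbrev a4 (s : ℝ) : ℝ := ev Mil.R.E4 s
/-- `E_6(is)` -/
noncomputable abbrev a6 (s : ℝ) : ℝ := ev Mil.R.E6 s

theorem S_pt (s : ℝ) (hs : 0 < s) : ModularGroup.S • pt s hs = pt s⁻¹ (inv_pos.2 hs) := by
  apply UpperHalfPlane.ext
  rw [UpperHalfPlane.modular_S_smul]
  change (-((pt s hs : ℍ) : ℂ))⁻¹ = ((s⁻¹ : ℝ) : ℂ) * Complex.I
  rw [pt_coe]
  have : (s : ℂ) ≠ 0 := by exact_mod_cast hs.ne'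
  push_cast
  rw [inv_neg, mul_inv, Complex.inv_I]
  ring

theorem a4_inv {s : ℝ} (hs : 0 < s) : a4 s⁻¹ = s ^ 4 * a4 s := by
  have h4 := Pool.Agent.TH21.MS.S_inv4 (pt s hs)
  rw [S_pt, HS_ev hsE4, HS_ev hsE4, pt_coe, mul_pow, Complex.I_pow_four, mul_one] at h4
  exact_mod_cast h4

theorem a6_inv {s : ℝ} (hs : 0 < s) : a6 s⁻¹ = -(s ^ 6 * a6 s) := by
  have h6 := Pool.Agent.TH21.MS.S_inv6 (pt s hs)
  rw [S_pt, HS_ev hsE6, HS_ev hsE6, pt_coe, mul_pow,
    show Complex.I ^ 6 = -1 by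
      rw [show (6 : ℕ) = 4 + 2 by norm_num, pow_add, Complex.I_pow_four, Complex.I_sq]; ring] at h6
  have : ((a6 s⁻¹ : ℝ) : ℂ) = ((-(s ^ 6 * a6 s) : ℝ) : ℂ) := by
    rw [h6]; push_cast; ring
  exact_mod_cast this

theorem a2_inv {s : ℝ} (hs : 0 < s) : a2 s⁻¹ = -(s ^ 2 * a2 s) + 6 * s / π := by
  have h := congrFun (E2_slash_action ModularGroup.S) (pt s hs)
  have h2 : (UpperHalfPlane.mk _ (pt s hs).im_inv_neg_coe_pos : ℍ) = pt s⁻¹ (inv_pos.2 hs) := by
    rw [← S_pt s hs, UpperHalfPlane.modular_S_smul]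
  rw [SlashInvariantForm.slash_S_apply, h2] at h
  simp only [Pi.sub_apply, Pi.smul_apply, smul_eq_mul, D2_S] at h
  rw [riemannZeta_two, HS_ev hsE2, HS_ev hsE2, pt_coe] at h
  have hsc : (s : ℂ) ≠ 0 := by exact_mod_cast hs.ne'
  have hpi : (π : ℂ) ≠ 0 := by exact_mod_cast Real.pi_ne_zero
  have hI : Complex.I ≠ 0 := Complex.I_ne_zero
  have e : (((s : ℂ) * Complex.I) ^ (-(2 : ℤ))) = -((s : ℂ) ^ 2)⁻¹ := by
    rw [zpow_neg]
    have : ((s : ℂ) * Complex.I) ^ (2 : ℤ) = -(s : ℂ) ^ 2 := by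
      rw [show (2 : ℤ) = ((2 : ℕ) : ℤ) by rfl, zpow_natCast, mul_pow, Complex.I_sq]; ring
    rw [this, inv_neg]
  rw [e] at h
  have h3 : ((a2 s⁻¹ : ℝ) : ℂ) = ((-(s ^ 2 * a2 s) + 6 * s / π : ℝ) : ℂ) := by
    push_cast
    field_simp at h ⊢
    linear_combination (-1 : ℂ) * h
  exact_mod_cast h3

end Pool.Agent.Q17.Ext
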