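import Mathlib
import Pool.Agent.Q17.Ext.Ev

/-!
# Inequalities between the Eisenstein series on the imaginary axis
-/

set_option autoImplicit false

open Filter Topology Finset
open scoped PowerSeries

namespace Pool.Agent.Q17.Ext

open Pool.Agent.Q17.Mil (rr rr_pos rr_lt_one rr_anti)
open Pool.Agent.Q17 PowerSeries

theorem coeff_E2 (n : ℕ) : coeff n Mil.R.E2 = if n = 0 then 1 else
    -24 * ((ArithmeticFunction.sigma 1 n : ℕ) : ℝ) := by rw [Mil.R.E2, coeff_mk]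
theorem coeff_E4 (n : ℕ) : coeff n Mil.R.E4 = if n = 0 then 1 else
    240 * ((ArithmeticFunction.sigma 3 n : ℕ) : ℝ) := by rw [Mil.R.E4, coeff_mk]
theorem coeff_E6 (n : ℕ) : coeff n Mil.R.E6 = if n = 0 then 1 else
    -504 * ((ArithmeticFunction.sigma 5 n : ℕ) : ℝ) := by rw [Mil.R.E6, coeff_mk]

theorem ev_thE2 {s : ℝ} (hs : 0 < s) : ev (Mil.R.th Mil.R.E2) s = (a2 s ^ 2 - a4 s) / 12 := by
  rw [th_E2, tt, ev_smul, ev_sub (cE2.pow 2) cE4 hs, ev_pow cE2 hs]; ring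

theorem ev_thE4 {s : ℝ} (hs : 0 < s) :
    ev (Mil.R.th Mil.R.E4) s = (a2 s * a4 s - a6 s) / 3 := by
  have e : Mil.R.th Mil.R.E4 = C (1 / 3) * (Mil.R.E2 * Mil.R.E4 - Mil.R.E6) := by
    rw [th_E4, tt]
    have : (4 : ℝ⟦X⟧) * C (1 / 12) = C (1 / 3) := by
      rw [← map_ofNat C 4, ← map_mul]; norm_num
    rw [this]
  rw [e, ev_smul, ev_sub (cE2.mul cE4) cE6 hs, ev_mul cE2 cE4 hs]; ring

theorem ev_thE6 {s : ℝ} (hs : 0 < s) :
    ev (Mil.R.th Mil.R.E6) s = (a2 s * a6 s - a4 s ^ 2) / 2 := by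
  have e : Mil.R.th Mil.R.E6 = C (1 / 2) * (Mil.R.E2 * Mil.R.E6 - Mil.R.E4 ^ 2) := by
    rw [th_E6, tt]
    have : (6 : ℝ⟦X⟧) * C (1 / 12) = C (1 / 2) := by
      rw [← map_ofNat C 6, ← map_mul]; norm_num
    rw [this]
  rw [e, ev_smul, ev_sub (cE2.mul cE6) (cE4.pow 2) hs, ev_mul cE2 cE6 hs, ev_pow cE4 hs]; ring

theorem d2 {s : ℝ} (hs : 0 < s) :
    HasDerivAt a2 (-(2 * Real.pi) * ((a2 s ^ 2 - a4 s) / 12)) s := by
  rw [← ev_thE2 hs]; exact ev_deriv cE2 hs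
theorem d4 {s : ℝ} (hs : 0 < s) :
    HasDerivAt a4 (-(2 * Real.pi) * ((a2 s * a4 s - a6 s) / 3)) s := by
  rw [← ev_thE4 hs]; exact ev_deriv cE4 hs
theorem d6 {s : ℝ} (hs : 0 < s) :
    HasDerivAt a6 (-(2 * Real.pi) * ((a2 s * a6 s - a4 s ^ 2) / 2)) s := by
  rw [← ev_thE6 hs]; exact ev_deriv cE6 hs

/-- `E_2^2 < E_4` -/
theorem ineqA {s : ℝ} (hs : 0 < s) : a2 s ^ 2 < a4 s := by
  have h1 : 0 < ev (C (-1) * Mil.R.th Mil.R.E2) s := by
    refine ev_pos (cE2.th.smul _) (fun n => ?_) (m := 1) ?_ hs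
    · rw [coeff_C_mul, Mil.R.coeff_th, coeff_E2]
      split_ifs with h
      · subst h; simp
      · have : (0 : ℝ) ≤ (n : ℝ) * ((ArithmeticFunction.sigma 1 n : ℕ) : ℝ) := by positivity
        nlinarith
    · rw [coeff_C_mul, Mil.R.coeff_th, coeff_E2]; simp
  rw [ev_smul, ev_thE2 hs] at h1
  linarith

theorem a4_pos {s : ℝ} (hs : 0 < s) : 0 < a4 s := lt_of_le_of_lt (sq_nonneg _) (ineqA hs)

/-! ### `n σ_3(n) ≤ σ_5(n)` -/

theorem sigma35 (n : ℕ) : n * ArithmeticFunction.sigma 3 n ≤ ArithmeticFunction.sigma 5 n := by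
  rw [ArithmeticFunction.sigma_apply, ArithmeticFunction.sigma_apply]
  have h1 := Nat.sum_div_divisors n (fun d => ((d : ℤ) ^ 5 - n * (d : ℤ) ^ 3))
  have h2 : 0 ≤ ∑ d ∈ n.divisors, ((d : ℤ) ^ 5 - n * (d : ℤ) ^ 3) +
      ∑ d ∈ n.divisors, (((n / d : ℕ) : ℤ) ^ 5 - n * ((n / d : ℕ) : ℤ) ^ 3) := by
    rw [← sum_add_distrib]
    refine sum_nonneg fun d hd => ?_
    obtain ⟨e, he⟩ := Nat.dvd_of_mem_divisors hd
    have hn : n ≠ 0 := (Nat.mem_divisors.1 hd).2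
    have hd0 : 0 < d := Nat.pos_of_ne_zero (by rintro rfl; simp at he; exact hn he)
    have h3 : n / d = e := by rw [he, Nat.mul_div_cancel_left _ hd0]
    rw [h3]
    have h4 : (n : ℤ) = d * e := by exact_mod_cast he
    rw [h4]
    have h5 : ((d : ℤ) ^ 5 - (d * e) * (d : ℤ) ^ 3) + ((e : ℤ) ^ 5 - (d * e) * (e : ℤ) ^ 3) =
        ((d : ℤ) - e) ^ 2 * ((d + e) * (d ^ 2 + e ^ 2)) := by ring
    rw [h5]
    positivity
  rw [h1] at h2
  have h3 : 0 ≤ ∑ d ∈ n.divisors, ((d : ℤ) ^ 5 - n * (d : ℤ) ^ 3) := by linarith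
  rw [sum_sub_distrib, ← mul_sum] at h3
  have h4 : ((n * ∑ d ∈ n.divisors, d ^ 3 : ℕ) : ℤ) ≤ ((∑ d ∈ n.divisors, d ^ 5 : ℕ) : ℤ) := by
    push_cast
    linarith
  exact_mod_cast h4

theorem sigma35' (n : ℕ) : (n : ℝ) * ((ArithmeticFunction.sigma 3 n : ℕ) : ℝ) ≤
    ((ArithmeticFunction.sigma 5 n : ℕ) : ℝ) := by exact_mod_cast sigma35 n

theorem s3_2 : ArithmeticFunction.sigma 3 2 = 9 := by decide +kernel
theorem s3_3 : ArithmeticFunction.sigma 3 3 = 28 := by decide +kernel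
theorem s5_2 : ArithmeticFunction.sigma 5 2 = 33 := by decide +kernel
theorem s5_3 : ArithmeticFunction.sigma 5 3 = 244 := by decide +kernel

/-- `5 E_4^2 - 7 E_2^2 E_4 + 2 E_2 E_6 > 0` -/
theorem ineqB {s : ℝ} (hs : 0 < s) : 0 < 5 * a4 s ^ 2 - 7 * a2 s ^ 2 * a4 s + 2 * a2 s * a6 s := by
  set f : ℝ⟦X⟧ := C (-(252 / 5)) * Mil.R.th (Mil.R.th Mil.R.E4) + C (-24) * Mil.R.th Mil.R.E6 with hf
  have hc : Conv f := (cE4.th.th.smul _).add (cE6.th.smul _)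
  have hco : ∀ n, coeff n f = 12096 * (n * (((ArithmeticFunction.sigma 5 n : ℕ) : ℝ) -
      n * ((ArithmeticFunction.sigma 3 n : ℕ) : ℝ))) := by
    intro n
    rw [hf, map_add, coeff_C_mul, coeff_C_mul, Mil.R.coeff_th, Mil.R.coeff_th, Mil.R.coeff_th,
      coeff_E4, coeff_E6]
    split_ifs with h
    · subst h; simp
    · ring
  have h1 : 0 < ev f s := by
    refine ev_pos hc (fun n => ?_) (m := 2) ?_ hs
    · rw [hco]
      have := sigma35' n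
      have h2 : 0 ≤ ((ArithmeticFunction.sigma 5 n : ℕ) : ℝ) -
        n * ((ArithmeticFunction.sigma 3 n : ℕ) : ℝ) := by linarith
      positivity
    · rw [hco, s3_2, s5_2]; norm_num
  have h2 : ev f s = 5 * a4 s ^ 2 - 7 * a2 s ^ 2 * a4 s + 2 * a2 s * a6 s := by
    have e : f = C 5 * Mil.R.E4 ^ 2 - C 7 * (Mil.R.E2 ^ 2 * Mil.R.E4) +
        C 2 * (Mil.R.E2 * Mil.R.E6) := by
      have k1 : Mil.R.th (Mil.R.th Mil.R.E4) = C (1 / 36) * (C 5 * (Mil.R.E2 ^ 2 * Mil.R.E4) +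
          C 5 * Mil.R.E4 ^ 2 - C 10 * (Mil.R.E2 * Mil.R.E6)) := by
        have e4 : Mil.R.th Mil.R.E4 = C (1 / 3) * (Mil.R.E2 * Mil.R.E4 - Mil.R.E6) := by
          rw [th_E4, tt]
          have : (4 : ℝ⟦X⟧) * C (1 / 12) = C (1 / 3) := by
            rw [← map_ofNat C 4, ← map_mul]; norm_num
          rw [this]
        have e6 : Mil.R.th Mil.R.E6 = C (1 / 2) * (Mil.R.E2 * Mil.R.E6 - Mil.R.E4 ^ 2) := by
          rw [th_E6, tt]
          have : (6 : ℝ⟦X⟧) * C (1 / 12) = C (1 / 2) := by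
            rw [← map_ofNat C 6, ← map_mul]; norm_num
          rw [this]
        rw [e4, Mil.R.th_smul, Mil.R.th_sub, Mil.R.th_mul, e4, e6, th_E2, tt]
        have c3 : (C (1 / 3) : ℝ⟦X⟧) = 12 * C (1 / 36) := by
          rw [← map_ofNat C 12, ← map_mul]; norm_num
        have c2 : (C (1 / 2) : ℝ⟦X⟧) = 18 * C (1 / 36) := by
          rw [← map_ofNat C 18, ← map_mul]; norm_num
        have c12 : (C (1 / 12) : ℝ⟦X⟧) = 3 * C (1 / 36) := by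
          rw [← map_ofNat C 3, ← map_mul]; norm_num
        have c36 : (36 : ℝ⟦X⟧) * C (1 / 36) = 1 := by
          rw [← map_ofNat C 36, ← map_mul]; norm_num
        have c5 : (C (5 : ℝ) : ℝ⟦X⟧) = 5 := map_ofNat C 5
        have c10 : (C (10 : ℝ) : ℝ⟦X⟧) = 10 := map_ofNat C 10
        rw [c3, c2, c12, c5, c10]
        linear_combination (C (1 / 36) * (5 * (Mil.R.E2 ^ 2 * Mil.R.E4) +
          5 * Mil.R.E4 ^ 2 - 10 * (Mil.R.E2 * Mil.R.E6))) * c36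
      have e6 : Mil.R.th Mil.R.E6 = C (1 / 2) * (Mil.R.E2 * Mil.R.E6 - Mil.R.E4 ^ 2) := by
        rw [th_E6, tt]
        have : (6 : ℝ⟦X⟧) * C (1 / 12) = C (1 / 2) := by
          rw [← map_ofNat C 6, ← map_mul]; norm_num
        rw [this]
      have g1 : (C (-(252 / 5)) * (C (1 / 36) * C 5) : ℝ⟦X⟧) = C (-7) := by
        rw [← map_mul, ← map_mul]; norm_num
      have g2 : (C (-(252 / 5)) * (C (1 / 36) * C 10) : ℝ⟦X⟧) = C (-14) := by
        rw [← map_mul, ← map_mul]; norm_num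
      have g3 : (C (-24) * C (1 / 2) : ℝ⟦X⟧) = C (-12) := by
        rw [← map_mul]; norm_num
      have g4 : (C (-7) : ℝ⟦X⟧) = -C 7 := by rw [map_neg]
      have g5 : (C (-14) : ℝ⟦X⟧) = -C 14 := by rw [map_neg]
      have g6 : (C (-12) : ℝ⟦X⟧) = -C 12 := by rw [map_neg]
      have g7 : (C 14 : ℝ⟦X⟧) = C 2 + C 12 := by rw [← map_add]; norm_num
      have g8 : (C 12 : ℝ⟦X⟧) = C 5 + C 7 := by rw [← map_add]; norm_num
      rw [hf, k1, e6]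
      linear_combination (Mil.R.E2 ^ 2 * Mil.R.E4 + Mil.R.E4 ^ 2) * (g1.trans g4) -
        (Mil.R.E2 * Mil.R.E6) * (g2.trans g5) +
        (Mil.R.E2 * Mil.R.E6 - Mil.R.E4 ^ 2) * (g3.trans g6) + (Mil.R.E2 * Mil.R.E6) * g7 +
        (Mil.R.E4 ^ 2) * g8
    rw [e, ev_add (((cE4.pow 2).smul _).sub (((cE2.pow 2).mul cE4).smul _))
      ((cE2.mul cE6).smul _) hs, ev_sub ((cE4.pow 2).smul _) (((cE2.pow 2).mul cE4).smul _) hs,
      ev_smul, ev_smul, ev_smul, ev_pow cE4 hs, ev_mul (cE2.pow 2) cE4 hs, ev_pow cE2 hs,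
      ev_mul cE2 cE6 hs]
    ring
  rw [← h2]; exact h1

end Pool.Agent.Q17.Ext
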