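import Mathlib
import Pool.Agent.Q17.Ext.Ineq

/-!
# The inequality `19 E_4^3 - 30 E_2^2 E_4^2 + 15 E_2 E_4 E_6 - 4 E_6^2 > 0` on the imaginary axis
-/

set_option autoImplicit false

open Filter Topology Finset
open scoped PowerSeries

namespace Pool.Agent.Q17.Ext

open Pool.Agent.Q17.Mil (rr rr_pos rr_lt_one rr_anti)
open Pool.Agent.Q17 PowerSeries

theorem ev_ge {f : ℝ⟦X⟧} (hf : Conv f) (N : ℕ) (h : ∀ n, N ≤ n → 0 ≤ coeff n f) {s : ℝ}
    (hs : 0 < s) : ∑ i ∈ range N, coeff i f * rr s ^ i ≤ ev f s := by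
  refine (hf.sum hs).sum_le_tsum (range N) fun i hi => ?_
  have := (rr_pos s).le
  exact mul_nonneg (h i (by simpa using hi)) (by positivity)

theorem rr_le {s : ℝ} (hs : 1 ≤ s) : rr s ≤ 1 / 500 := by
  have h1 : rr s ≤ rr 1 := by
    rcases eq_or_lt_of_le hs with h | h
    · rw [h]
    · exact (rr_anti h).le
  refine h1.trans ?_
  rw [rr, mul_one]
  have h2 : (6.28 : ℝ) ≤ 2 * Real.pi := by have := Real.pi_gt_d2; linarith
  calc Real.exp (-(2 * Real.pi)) ≤ Real.exp (-6.28) := Real.exp_le_exp.2 (by linarith)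
    _ = (Real.exp 6.28)⁻¹ := Real.exp_neg _
    _ ≤ (500 : ℝ)⁻¹ := by
        apply inv_anti₀ (by norm_num)
        have h3 : Real.exp 6.28 = Real.exp 1 ^ 6 * Real.exp 0.28 := by
          rw [← Real.exp_nat_mul, ← Real.exp_add]; norm_num
        have h4 : (1.28 : ℝ) ≤ Real.exp 0.28 := by
          have := Real.add_one_le_exp (0.28 : ℝ); linarith
        have h5 : (2.71 : ℝ) ^ 6 ≤ Real.exp 1 ^ 6 := by
          gcongr
          have := Real.exp_one_gt_d9; linarith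
        rw [h3]
        calc (500 : ℝ) ≤ 2.71 ^ 6 * 1.28 := by norm_num
          _ ≤ Real.exp 1 ^ 6 * Real.exp 0.28 := by gcongr
    _ = 1 / 500 := by norm_num

theorem a4_lb {s : ℝ} (hs : 0 < s) :
    1 + 240 * rr s + 2160 * rr s ^ 2 + 6720 * rr s ^ 3 ≤ a4 s := by
  have h := ev_ge cE4 4 (fun n hn => by
    rw [coeff_E4, if_neg (by omega)]; positivity) hs
  simp only [sum_range_succ, sum_range_zero, coeff_E4, s3_2, s3_3] at h
  norm_num at h
  linarith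

theorem a6_ub {s : ℝ} (hs : 0 < s) :
    a6 s ≤ 1 - 504 * rr s - 16632 * rr s ^ 2 - 122976 * rr s ^ 3 := by
  have h := ev_ge (cE6.smul (-1)) 4 (fun n hn => by
    rw [coeff_C_mul, coeff_E6, if_neg (by omega)]
    have : (0 : ℝ) ≤ ((ArithmeticFunction.sigma 5 n : ℕ) : ℝ) := Nat.cast_nonneg _
    linarith) hs
  rw [ev_smul] at h
  simp only [sum_range_succ, sum_range_zero, coeff_C_mul, coeff_E6, s5_2, s5_3] at h
  norm_num at h
  linarith

theorem t_ub {s : ℝ} (hs : 0 < s) :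
    a6 s + 2 * (a2 s * a4 s) ≤ 3 - 72 * rr s - 23976 * rr s ^ 2 := by
  have hc : Conv (C (-3) * Mil.R.E6 + C (-6) * Mil.R.th Mil.R.E4) :=
    (cE6.smul _).add (cE4.th.smul _)
  have h := ev_ge hc 3 (fun n hn => by
    rw [map_add, coeff_C_mul, coeff_C_mul, Mil.R.coeff_th, coeff_E6, coeff_E4, if_neg (by omega),
      if_neg (by omega)]
    have h1 := sigma35' n
    have : (0 : ℝ) ≤ ((ArithmeticFunction.sigma 5 n : ℕ) : ℝ) := Nat.cast_nonneg _
    nlinarith) hs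
  rw [ev_add (cE6.smul _) (cE4.th.smul _) hs, ev_smul, ev_smul, ev_thE4 hs] at h
  simp only [sum_range_succ, sum_range_zero, map_add, coeff_C_mul, Mil.R.coeff_th, coeff_E6,
    coeff_E4, s5_2, s3_2] at h
  norm_num at h
  linarith

theorem v_nonneg {s : ℝ} (hs : 0 < s) : 0 ≤ a2 s * a4 s - a6 s := by
  have h := ev_ge cE4.th 0 (fun n _ => by
    rw [Mil.R.coeff_th, coeff_E4]
    split_ifs with h
    · subst h; simp
    · positivity) hs
  rw [ev_thE4 hs] at h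
  simp only [sum_range_zero] at h
  linarith

theorem pow5_le (m : ℕ) : (m + 4) ^ 5 ≤ 1024 * 5 ^ m := by
  induction m with
  | zero => norm_num
  | succ m ih =>
    have h : (m + 1 + 4) ^ 5 ≤ 5 * (m + 4) ^ 5 := by
      have h1 : 4 * (m + 1 + 4) ≤ 5 * (m + 4) := by omega
      have h2 : (4 * (m + 1 + 4)) ^ 5 ≤ (5 * (m + 4)) ^ 5 := Nat.pow_le_pow_left h1 5
      rw [mul_pow, mul_pow] at h2
      have h3 := Nat.zero_le ((m + 4) ^ 5)
      norm_num at h2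
      linarith
    calc (m + 1 + 4) ^ 5 ≤ 5 * (m + 4) ^ 5 := h
      _ ≤ 5 * (1024 * 5 ^ m) := Nat.mul_le_mul_left _ ih
      _ = 1024 * 5 ^ (m + 1) := by ring

theorem v_ub {s : ℝ} (hs : 1 ≤ s) :
    a2 s * a4 s - a6 s ≤ 720 * (rr s + 18 * rr s ^ 2 + 87 * rr s ^ 3) := by
  have hs0 : 0 < s := by linarith
  set r := rr s with hr
  have hr0 : 0 < r := rr_pos s
  have hr1 : r ≤ 1 / 500 := rr_le hs
  have h1 : ev (Mil.R.th Mil.R.E4) s ≤ 240 * (r + 18 * r ^ 2 + 87 * r ^ 3) := by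
    have h6 : ∑ i ∈ range 4, coeff i (Mil.R.th Mil.R.E4) * rr s ^ i =
        240 * (r + 18 * r ^ 2 + 84 * r ^ 3) := by
      simp only [sum_range_succ, sum_range_zero, Mil.R.coeff_th, coeff_E4, s3_2, s3_3, ← hr]
      norm_num
      ring
    rw [ev, ← (cE4.th.sum hs0).sum_add_tsum_nat_add 4, h6]
    have hg : Summable fun m : ℕ => 240 * 1024 * r ^ 4 * (5 * r) ^ m :=
      (summable_geometric_of_lt_one (by positivity) (by linarith)).mul_left _
    have h2 : ∑' m, coeff (m + 4) (Mil.R.th Mil.R.E4) * rr s ^ (m + 4) ≤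
        ∑' m : ℕ, 240 * 1024 * r ^ 4 * (5 * r) ^ m := by
      refine Summable.tsum_le_tsum (fun m => ?_) ((summable_nat_add_iff 4).2 (cE4.th.sum hs0)) hg
      rw [Mil.R.coeff_th, coeff_E4, if_neg (by omega), ← hr]
      have h3 : ((ArithmeticFunction.sigma 3 (m + 4) : ℕ) : ℝ) ≤ ((m + 4 : ℕ) : ℝ) ^ 4 := by
        exact_mod_cast Mil.sigma_le_pow 3 (m + 3)
      have h4 : ((m + 4 : ℕ) : ℝ) ^ 5 ≤ 1024 * 5 ^ m := by exact_mod_cast pow5_le m
      calc ((m + 4 : ℕ) : ℝ) * (240 * ((ArithmeticFunction.sigma 3 (m + 4) : ℕ) : ℝ)) * r ^ (m + 4)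
          ≤ ((m + 4 : ℕ) : ℝ) * (240 * ((m + 4 : ℕ) : ℝ) ^ 4) * r ^ (m + 4) := by gcongr
        _ = 240 * ((m + 4 : ℕ) : ℝ) ^ 5 * r ^ (m + 4) := by ring
        _ ≤ 240 * (1024 * 5 ^ m) * r ^ (m + 4) := by gcongr
        _ = 240 * 1024 * r ^ 4 * (5 * r) ^ m := by rw [mul_pow, pow_add]; ring
    rw [tsum_mul_left, tsum_geometric_of_lt_one (by positivity) (by linarith)] at h2
    have h5 : 240 * 1024 * r ^ 4 * (1 - 5 * r)⁻¹ ≤ 240 * 3 * r ^ 3 := by
      rw [← div_eq_mul_inv, div_le_iff₀ (by linarith)]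
      have : 0 ≤ r ^ 3 := by positivity
      nlinarith
    linarith
  rw [ev_thE4 hs0] at h1
  linarith

theorem a6_eq {s : ℝ} (hs : 0 < s) : a6 s = Mil.e6 s := by
  have h := HS_ev hsE6 hs
  rw [Mil.E6_it (pt_re s hs), pt_im] at h
  exact_mod_cast h.symm

theorem a4_eq {s : ℝ} (hs : 0 < s) : a4 s = Mil.e4 s := by
  have h := HS_ev hsE4 hs
  rw [Mil.E4_it (pt_re s hs), pt_im] at h
  exact_mod_cast h.symm

theorem a6_nonneg {s : ℝ} (hs : 1 ≤ s) : 0 ≤ a6 s := by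
  rw [a6_eq (by linarith)]
  rcases eq_or_lt_of_le hs with h | h
  · rw [← h, Mil.e6_one]
  · have := Mil.e6_strictMono one_pos h
    rw [Mil.e6_one] at this
    exact this.le

theorem a6_nonpos {s : ℝ} (hs : 0 < s) (hs1 : s ≤ 1) : a6 s ≤ 0 := by
  rw [a6_eq hs]
  rcases eq_or_lt_of_le hs1 with h | h
  · rw [h, Mil.e6_one]
  · have := Mil.e6_strictMono hs h
    rw [Mil.e6_one] at this
    exact this.le

theorem disc' {s : ℝ} (hs : 0 < s) : a6 s ^ 2 < a4 s ^ 3 := by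
  have := Mil.disc_pos hs
  rw [a6_eq hs, a4_eq hs]
  linarith

/-- the quantity -/
noncomputable def PP (s : ℝ) : ℝ :=
  19 * a4 s ^ 3 - 30 * a2 s ^ 2 * a4 s ^ 2 + 15 * a2 s * a4 s * a6 s - 4 * a6 s ^ 2

theorem PP_ge_one {s : ℝ} (hs : 1 ≤ s) : 0 < PP s := by
  have hs0 : 0 < s := by linarith
  have e : PP s = 19 * (a4 s ^ 3 - a6 s ^ 2) -
      15 * ((a2 s * a4 s - a6 s) * (a6 s + 2 * (a2 s * a4 s))) := by
    rw [PP]; ring
  set r := rr s with hr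
  have hr0 : 0 < r := rr_pos s
  have hr1 : r ≤ 1 / 500 := rr_le hs
  have h4 := a4_lb hs0
  have h6 := a6_ub hs0
  have h60 := a6_nonneg hs
  have ht := t_ub hs0
  have hv := v_ub hs
  have hv0 := v_nonneg hs0
  rw [← hr] at h4 h6 ht hv
  have hU : 0 ≤ 3 - 72 * r - 23976 * r ^ 2 := by nlinarith
  have h1 : (1 + 240 * r + 2160 * r ^ 2 + 6720 * r ^ 3) ^ 3 ≤ a4 s ^ 3 :=
    pow_le_pow_left₀ (by positivity) h4 3
  have h2 : a6 s ^ 2 ≤ (1 - 504 * r - 16632 * r ^ 2 - 122976 * r ^ 3) ^ 2 :=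
    pow_le_pow_left₀ h60 h6 2
  have h3 : (a2 s * a4 s - a6 s) * (a6 s + 2 * (a2 s * a4 s)) ≤
      (720 * (r + 18 * r ^ 2 + 87 * r ^ 3)) * (3 - 72 * r - 23976 * r ^ 2) :=
    (mul_le_mul_of_nonneg_left ht hv0).trans (mul_le_mul_of_nonneg_right hv hU)
  have h5 : 19 * ((1 + 240 * r + 2160 * r ^ 2 + 6720 * r ^ 3) ^ 3 -
      (1 - 504 * r - 16632 * r ^ 2 - 122976 * r ^ 3) ^ 2) -
      15 * ((720 * (r + 18 * r ^ 2 + 87 * r ^ 3)) * (3 - 72 * r - 23976 * r ^ 2)) =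
      r * (432 - 593568 * r + 278392464 * r ^ 2) + 4659014592 * r ^ 4 + 32348294784 * r ^ 5 +
      303847289856 * r ^ 6 + 2404878336000 * r ^ 7 + 5559902208000 * r ^ 8 +
      5765824512000 * r ^ 9 := by ring
  have h7 : 0 < 432 - 593568 * r + 278392464 * r ^ 2 := by
    nlinarith [sq_nonneg (r - 0.001066)]
  have h8 : 0 < r * (432 - 593568 * r + 278392464 * r ^ 2) + 4659014592 * r ^ 4 +
      32348294784 * r ^ 5 + 303847289856 * r ^ 6 + 2404878336000 * r ^ 7 +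
      5559902208000 * r ^ 8 + 5765824512000 * r ^ 9 := by positivity
  rw [e]
  linarith

theorem a2_strict {s t : ℝ} (hs : 0 < s) (h : s < t) : a2 s < a2 t := by
  have hm : StrictMonoOn a2 (Set.Ioi 0) := by
    refine strictMonoOn_of_deriv_pos (convex_Ioi 0) (fun x hx => (d2 hx).continuousAt.continuousWithinAt) ?_
    intro x hx
    rw [interior_Ioi] at hx
    rw [(d2 hx).deriv]
    have h1 := ineqA hx
    have h2 := Real.pi_pos
    nlinarith
  exact hm hs (show (0:ℝ) < t by linarith) h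

theorem dPP {s : ℝ} (hs : 0 < s) : HasDerivAt PP (-(2 * Real.pi) *
    ((a2 s * a4 s * (8 * a4 s ^ 3 + 119 / 2 * a6 s ^ 2) -
      a6 s * (67 / 2 * a4 s ^ 3 + 34 * a6 s ^ 2) +
      (10 * (a2 s * a4 s) - 17 / 2 * a6 s) * PP s) / (12 * a4 s))) s := by
  have h2 := d2 hs
  have h4 := d4 hs
  have h6 := d6 hs
  have h := ((((h4.pow 3).const_mul 19).sub (((h2.pow 2).const_mul 30).mul (h4.pow 2))).add
    ((((h2.const_mul 15).mul h4).mul h6))).sub ((h6.pow 2).const_mul 4)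
  refine h.congr_deriv ?_
  have := (a4_pos hs).ne'
  simp only [Pi.pow_apply, Pi.mul_apply]
  rw [PP]
  field_simp
  push_cast
  ring

theorem PP_barrier {s : ℝ} (hs : 0 < s) (hs1 : s < 1) (h2 : 0 < a2 s) : 0 < PP s := by
  by_contra hcon
  push Not at hcon
  have hcont : ContinuousOn PP (Set.Icc s 1) := fun x hx =>
    (dPP (lt_of_lt_of_le hs hx.1)).continuousAt.continuousWithinAt
  set K : Set ℝ := Set.Icc s 1 ∩ PP ⁻¹' (Set.Iic 0) with hK
  have hKc : IsClosed K := hcont.preimage_isClosed_of_isClosed isClosed_Icc isClosed_Iic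
  have hKb : BddAbove K := ⟨1, fun x hx => hx.1.2⟩
  have hKn : K.Nonempty := ⟨s, ⟨le_rfl, hs1.le⟩, hcon⟩
  have hu := hKc.csSup_mem hKn hKb
  set u := sSup K with hu'
  have hus : s ≤ u := hu.1.1
  have hu0 : 0 < u := lt_of_lt_of_le hs hus
  have hu1 : u < 1 := by
    rcases eq_or_lt_of_le hu.1.2 with h | h
    · exfalso
      have h3 : PP u ≤ 0 := hu.2
      rw [h] at h3
      exact absurd h3 (not_le.2 (PP_ge_one le_rfl))
    · exact h
  have hright : ∀ x, u < x → x ≤ 1 → 0 < PP x := by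
    intro x hx hx1
    by_contra hc
    push Not at hc
    have : x ∈ K := ⟨⟨by linarith, hx1⟩, hc⟩
    exact absurd (le_csSup hKb this) (not_le.2 hx)
  have hd := dPP hu0
  have hPu : PP u = 0 := by
    apply le_antisymm hu.2
    refine ge_of_tendsto (hd.continuousAt.continuousWithinAt (s := Set.Ioi u)) ?_
    filter_upwards [Ioo_mem_nhdsGT hu1] with x hx
    exact (hright x hx.1 hx.2.le).le
  have h2u : 0 < a2 u := by
    rcases eq_or_lt_of_le hus with h | h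
    · rw [← h]; exact h2
    · exact h2.trans (a2_strict hs h)
  have h4u := a4_pos hu0
  have h6u := a6_nonpos hu0 hu1.le
  rw [hPu, mul_zero, add_zero] at hd
  have hneg : -(2 * Real.pi) * ((a2 u * a4 u * (8 * a4 u ^ 3 + 119 / 2 * a6 u ^ 2) -
      a6 u * (67 / 2 * a4 u ^ 3 + 34 * a6 u ^ 2)) / (12 * a4 u)) < 0 := by
    have h5 : 0 < (a2 u * a4 u * (8 * a4 u ^ 3 + 119 / 2 * a6 u ^ 2) -
      a6 u * (67 / 2 * a4 u ^ 3 + 34 * a6 u ^ 2)) / (12 * a4 u) := by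
      apply div_pos _ (by positivity)
      have h7 : 0 < a2 u * a4 u * (8 * a4 u ^ 3 + 119 / 2 * a6 u ^ 2) := by positivity
      have h8 : 0 ≤ -(a6 u) * (67 / 2 * a4 u ^ 3 + 34 * a6 u ^ 2) :=
        mul_nonneg (by linarith) (by positivity)
      linarith
    have := Real.pi_pos
    nlinarith
  have hev : ∀ᶠ x in 𝓝[>] u, PP x < 0 := by
    have h1 := hd.hasDerivWithinAt (s := Set.Ioi u)
    rw [hasDerivWithinAt_iff_tendsto_slope' (by simp)] at h1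
    have h3 := h1.eventually_lt_const hneg
    filter_upwards [h3, self_mem_nhdsWithin] with x hx hx2
    have hx3 : 0 < x - u := sub_pos.2 hx2
    rw [slope_def_field, hPu, sub_zero, div_lt_iff₀ hx3, zero_mul] at hx
    exact hx
  obtain ⟨x, hx1, hx2⟩ := (hev.and (Ioo_mem_nhdsGT hu1)).exists
  exact absurd (hright x hx2.1 hx2.2.le) (not_lt.2 hx1.le)

theorem a2_one : a2 1 = 3 / Real.pi := by
  have h := a2_inv one_pos
  rw [inv_one] at h
  linear_combination h / 2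

/-- **the third inequality** -/
theorem PP_pos {s : ℝ} (hs : 0 < s) : 0 < PP s := by
  rcases le_or_gt 1 s with h1 | h1
  · exact PP_ge_one h1
  rcases lt_or_ge 0 (a2 s) with h2 | h2
  · exact PP_barrier hs h1 h2
  -- `E_2(is) ≤ 0`
  have hy : 1 < s⁻¹ := (one_lt_inv₀ hs).2 h1
  have hy0 : 0 < s⁻¹ := by linarith
  set A := a2 s⁻¹ with hA
  set B := a4 s⁻¹ with hB
  set Cc := a6 s⁻¹ with hCc
  set x := -(s ^ 2 * a2 s) with hx
  have hx0 : 0 ≤ x := by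
    rw [hx]; have := sq_nonneg s; nlinarith
  have hAx : A = x + 6 * s / Real.pi := a2_inv hs
  have hAx' : x < A := by
    have : 0 < 6 * s / Real.pi := by have := Real.pi_pos; positivity
    linarith
  have hB' : B = s ^ 4 * a4 s := a4_inv hs
  have hC' : Cc = -(s ^ 6 * a6 s) := a6_inv hs
  have hBpos : 0 < B := a4_pos hy0
  have hC0 : 0 ≤ Cc := a6_nonneg hy.le
  have hQA : 0 < 19 * B ^ 3 - 30 * A ^ 2 * B ^ 2 + 15 * A * B * Cc - 4 * Cc ^ 2 := PP_ge_one hy.le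
  have hQ0 : 0 < 19 * B ^ 3 - 4 * Cc ^ 2 := by
    have := disc' hy0
    have h3 : 0 ≤ Cc ^ 2 := sq_nonneg _
    have h4 : 0 < B ^ 3 := by positivity
    linarith
  have hAp : 0 < A := by linarith
  have hQx : 0 < 19 * B ^ 3 - 30 * x ^ 2 * B ^ 2 + 15 * x * B * Cc - 4 * Cc ^ 2 := by
    have key : A * (19 * B ^ 3 - 30 * x ^ 2 * B ^ 2 + 15 * x * B * Cc - 4 * Cc ^ 2) =
        (A - x) * (19 * B ^ 3 - 4 * Cc ^ 2) +
        x * (19 * B ^ 3 - 30 * A ^ 2 * B ^ 2 + 15 * A * B * Cc - 4 * Cc ^ 2) +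
        30 * x * A * B ^ 2 * (A - x) := by ring
    have h3 : 0 < (A - x) * (19 * B ^ 3 - 4 * Cc ^ 2) := mul_pos (by linarith) hQ0
    have h4 : 0 ≤ x * (19 * B ^ 3 - 30 * A ^ 2 * B ^ 2 + 15 * A * B * Cc - 4 * Cc ^ 2) :=
      mul_nonneg hx0 hQA.le
    have h5 : 0 ≤ 30 * x * A * B ^ 2 * (A - x) := by
      have : 0 ≤ A - x := by linarith
      positivity
    have h6 : 0 < A * (19 * B ^ 3 - 30 * x ^ 2 * B ^ 2 + 15 * x * B * Cc - 4 * Cc ^ 2) := by
      rw [key]; linarith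
    exact pos_of_mul_pos_right h6 hAp.le
  have hfin : 19 * B ^ 3 - 30 * x ^ 2 * B ^ 2 + 15 * x * B * Cc - 4 * Cc ^ 2 = s ^ 12 * PP s := by
    rw [hB', hC', hx, PP]; ring
  rw [hfin] at hQx
  exact pos_of_mul_pos_right hQx (by positivity)

/-- the coefficient for `w = 6n + 4` -/
theorem ineq1 {k s : ℝ} (hk : 11 ≤ k) (hs : 0 < s) :
    0 < (k ^ 2 + k + 20) * a4 s ^ 3 - (k + 4) * (k + 5) * a2 s ^ 2 * a4 s ^ 2 +
      8 * (k + 4) * a2 s * a4 s * a6 s - 32 * a6 s ^ 2 := by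
  have h1 := PP_pos hs
  have h2 := ineqB hs
  have h3 := ineqA hs
  have h4 := a4_pos hs
  have e : (k ^ 2 + k + 20) * a4 s ^ 3 - (k + 4) * (k + 5) * a2 s ^ 2 * a4 s ^ 2 +
      8 * (k + 4) * a2 s * a4 s * a6 s - 32 * a6 s ^ 2 = 8 * PP s +
      (k - 11) * (a4 s * ((k - 11) * (a4 s * (a4 s - a2 s ^ 2)) +
        4 * (5 * a4 s ^ 2 - 7 * a2 s ^ 2 * a4 s + 2 * a2 s * a6 s) +
        3 * (a4 s * (a4 s - a2 s ^ 2)))) := by
    rw [PP]; ring
  rw [e]
  have h5 : 0 < a4 s * (a4 s - a2 s ^ 2) := mul_pos h4 (by linarith)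
  have h6 : 0 ≤ (k - 11) * (a4 s * ((k - 11) * (a4 s * (a4 s - a2 s ^ 2)) +
        4 * (5 * a4 s ^ 2 - 7 * a2 s ^ 2 * a4 s + 2 * a2 s * a6 s) +
        3 * (a4 s * (a4 s - a2 s ^ 2)))) := by
    have : 0 ≤ k - 11 := by linarith
    positivity
  linarith

/-- the coefficient for `w = 6n + 2` -/
theorem ineq2 {k s : ℝ} (hk : 11 ≤ k) (hs : 0 < s) :
    0 < (k - 1) * a4 s ^ 2 - (k + 3) * a2 s ^ 2 * a4 s + 4 * a2 s * a6 s := by
  have h2 := ineqB hs
  have h3 := ineqA hs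
  have h4 := a4_pos hs
  have e : (k - 1) * a4 s ^ 2 - (k + 3) * a2 s ^ 2 * a4 s + 4 * a2 s * a6 s =
      (k - 11) * (a4 s * (a4 s - a2 s ^ 2)) +
      2 * (5 * a4 s ^ 2 - 7 * a2 s ^ 2 * a4 s + 2 * a2 s * a6 s) := by ring
  rw [e]
  have h5 : 0 < a4 s * (a4 s - a2 s ^ 2) := mul_pos h4 (by linarith)
  have h6 : 0 ≤ (k - 11) * (a4 s * (a4 s - a2 s ^ 2)) := mul_nonneg (by linarith) h5.le
  linarith

end Pool.Agent.Q17.Ext
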