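import Mathlib
import Pool.Agent.Q17.Ext.Ineq2

/-!
# The maximum principle
-/

set_option autoImplicit false

open Filter Topology Set

namespace Pool.Agent.Q17.Ext

/-- `f' = -2π g`, `g' = -2π h`, and `h > 0` where `g = 0` and `f > 0` -/
structure MP (f g h : ℝ → ℝ) : Prop where
  df : ∀ s, 0 < s → HasDerivAt f (-(2 * Real.pi) * g s) s
  dg : ∀ s, 0 < s → HasDerivAt g (-(2 * Real.pi) * h s) s
  hh : ∀ s, 0 < s → g s = 0 → 0 < f s → 0 < h s

variable {f g h : ℝ → ℝ}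

theorem MP.no_max (H : MP f g h) {c : ℝ} (hc : 0 < c) (hf : 0 < f c) (hmax : IsLocalMax f c) :
    False := by
  have hpi := Real.pi_pos
  have h1 : -(2 * Real.pi) * g c = 0 := hmax.hasDerivAt_eq_zero (H.df c hc)
  have hg : g c = 0 := by
    rcases mul_eq_zero.1 h1 with h2 | h2
    · exfalso; linarith
    · exact h2
  have hh := H.hh c hc hg hf
  have hneg : -(2 * Real.pi) * h c < 0 := by nlinarith
  have hev : ∀ᶠ x in 𝓝[>] c, g x < 0 := by
    have h1 := (H.dg c hc).hasDerivWithinAt (s := Set.Ioi c)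
    rw [hasDerivWithinAt_iff_tendsto_slope' (by simp)] at h1
    have h3 := h1.eventually_lt_const hneg
    filter_upwards [h3, self_mem_nhdsWithin] with x hx hx2
    have hx3 : 0 < x - c := sub_pos.2 hx2
    rw [slope_def_field, hg, sub_zero, div_lt_iff₀ hx3, zero_mul] at hx
    exact hx
  obtain ⟨d, hd, hd2⟩ := (mem_nhdsGT_iff_exists_Ioo_subset).1 hev
  have hd' : c < d := hd
  have hmono : StrictMonoOn f (Set.Ico c d) := by
    refine strictMonoOn_of_deriv_pos (convex_Ico c d)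
      (fun x hx => (H.df x (lt_of_lt_of_le hc hx.1)).continuousAt.continuousWithinAt) ?_
    intro x hx
    rw [interior_Ico] at hx
    rw [(H.df x (hc.trans hx.1)).deriv]
    have := hd2 hx
    have h4 : g x < 0 := this
    nlinarith
  have h5 : ∀ᶠ x in 𝓝[>] c, f x ≤ f c := hmax.filter_mono nhdsWithin_le_nhds
  obtain ⟨x, hx1, hx2⟩ := (h5.and (Ioo_mem_nhdsGT hd')).exists
  have h6 := hmono (left_mem_Ico.2 hd') ⟨hx2.1.le, hx2.2⟩ hx2.1
  exact absurd hx1 (not_le.2 h6)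

theorem MP.cont (H : MP f g h) {a b : ℝ} (ha : 0 < a) : ContinuousOn f (Set.Icc a b) :=
  fun x hx => (H.df x (lt_of_lt_of_le ha hx.1)).continuousAt.continuousWithinAt

/-- **strict monotonicity** -/
theorem MP.mono (H : MP f g h) (h0 : Tendsto f (𝓝[>] 0) (𝓝 0)) (hpos : ∀ s, 0 < s → 0 < f s) :
    StrictMonoOn f (Set.Ioi 0) := by
  intro a ha b hb hab
  by_contra hcon
  push Not at hcon
  have ha' : 0 < a := ha
  have h1 : ∀ᶠ x in 𝓝[>] (0 : ℝ), f x < f a := h0.eventually_lt_const (hpos a ha)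
  obtain ⟨e, he1, he2⟩ := (h1.and (Ioo_mem_nhdsGT ha')).exists
  obtain ⟨c, hc, hcmax⟩ := (isCompact_Icc (a := e) (b := b)).exists_isMaxOn
    ⟨e, ⟨le_rfl, by linarith [he2.2]⟩⟩ (H.cont he2.1)
  have hfa : f a ≤ f c := hcmax ⟨he2.2.le, hab.le⟩
  have hce : e < c := by
    rcases eq_or_lt_of_le hc.1 with h | h
    · rw [← h] at hfa; linarith
    · exact h
  have hc0 : 0 < c := lt_of_lt_of_le he2.1 hc.1
  rcases eq_or_lt_of_le hc.2 with h | h
  · -- `c = b`
    have hab2 : f a = f b := le_antisymm (by rw [h] at hfa; exact hfa) hcon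
    refine H.no_max ha' (hpos a ha') ?_
    filter_upwards [Icc_mem_nhds he2.2 hab] with x hx
    have h3 : f x ≤ f c := hcmax hx
    rw [h] at h3
    linarith
  · refine H.no_max hc0 (hpos c hc0) ?_
    filter_upwards [Icc_mem_nhds hce h] with x hx
    exact hcmax hx

/-- **positivity** -/
theorem MP.pos (H : MP f g h) (hlim : Tendsto f atTop (𝓝 0)) (hev : ∀ᶠ s in atTop, 0 < f s) :
    ∀ s, 0 < s → 0 < f s := by
  intro a ha
  by_contra hcon
  push Not at hcon
  obtain ⟨b, hb1, hb2⟩ := (hev.and (eventually_gt_atTop a)).exists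
  obtain ⟨M, hM1, hM2⟩ := ((hlim.eventually_lt_const hb1).and (eventually_gt_atTop b)).exists
  obtain ⟨c, hc, hcmax⟩ := (isCompact_Icc (a := a) (b := M)).exists_isMaxOn
    ⟨a, ⟨le_rfl, by linarith⟩⟩ (H.cont ha)
  have hfb : f b ≤ f c := hcmax ⟨hb2.le, hM2.le⟩
  have hca : a < c := by
    rcases eq_or_lt_of_le hc.1 with h | h
    · rw [← h] at hfb; linarith
    · exact h
  have hcM : c < M := by
    rcases eq_or_lt_of_le hc.2 with h | h
    · rw [h] at hfb; linarith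
    · exact h
  refine H.no_max (ha.trans hca) (by linarith) ?_
  filter_upwards [Icc_mem_nhds hca hcM] with x hx
  exact hcmax hx

/-! ### The Kaneko-Zagier system -/

/-- the system -/
structure Sys (e k : ℝ) (U V : ℝ → ℝ) : Prop where
  dU : ∀ s, 0 < s → HasDerivAt U (-(2 * Real.pi) * (k / 12 * a2 s * U s + e * V s)) s
  dV : ∀ s, 0 < s → HasDerivAt V (-(2 * Real.pi) * ((k + 2) / 12 * a2 s * V s +
    e * (k * (k + 2) / 144) * a4 s * U s)) s

variable {e k : ℝ} {U V : ℝ → ℝ}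

theorem Sys.mp1 (H : Sys e k U V) (he : e ^ 2 = 1) (hk : 0 < k) :
    MP U (fun s => k / 12 * a2 s * U s + e * V s)
      (fun s => k / 12 * ((a2 s ^ 2 - a4 s) / 12 * U s + a2 s * (k / 12 * a2 s * U s + e * V s)) +
        e * ((k + 2) / 12 * a2 s * V s + e * (k * (k + 2) / 144) * a4 s * U s)) where
  df := H.dU
  dg s hs := by
    have h := (((d2 hs).const_mul (k / 12)).mul (H.dU s hs)).add ((H.dV s hs).const_mul e)
    refine h.congr_deriv ?_
    ring
  hh s hs h1 h2 := by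
    have hA := ineqA hs
    have e1 : k / 12 * ((a2 s ^ 2 - a4 s) / 12 * U s + a2 s * (k / 12 * a2 s * U s + e * V s)) +
        e * ((k + 2) / 12 * a2 s * V s + e * (k * (k + 2) / 144) * a4 s * U s) =
        k * (k + 1) / 144 * ((a4 s - a2 s ^ 2) * U s) := by
      linear_combination (k / 12 * a2 s + (k + 2) / 12 * a2 s) * h1 +
        (k * (k + 2) / 144 * a4 s * U s) * he
    rw [e1]
    have : 0 < a4 s - a2 s ^ 2 := by linarith
    positivity

theorem Sys.mp2 (H : Sys e k U V) (he : e ^ 2 = 1) (hk : 11 ≤ k) :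
    MP V (fun s => (k + 2) / 12 * a2 s * V s + e * (k * (k + 2) / 144) * a4 s * U s)
      (fun s => (k + 2) / 12 * ((a2 s ^ 2 - a4 s) / 12 * V s + a2 s *
        ((k + 2) / 12 * a2 s * V s + e * (k * (k + 2) / 144) * a4 s * U s)) +
        e * (k * (k + 2) / 144) * ((a2 s * a4 s - a6 s) / 3 * U s +
          a4 s * (k / 12 * a2 s * U s + e * V s))) where
  df := H.dV
  dg s hs := by
    have h := (((d2 hs).const_mul ((k + 2) / 12)).mul (H.dV s hs)).add
      (((d4 hs).const_mul (e * (k * (k + 2) / 144))).mul (H.dU s hs))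
    refine h.congr_deriv ?_
    ring
  hh s hs h1 h2 := by
    have hB := ineq2 hk hs
    have h4 := a4_pos hs
    have e1 : a4 s * ((k + 2) / 12 * ((a2 s ^ 2 - a4 s) / 12 * V s + a2 s *
        ((k + 2) / 12 * a2 s * V s + e * (k * (k + 2) / 144) * a4 s * U s)) +
        e * (k * (k + 2) / 144) * ((a2 s * a4 s - a6 s) / 3 * U s +
          a4 s * (k / 12 * a2 s * U s + e * V s))) =
        (k + 2) / 144 * (V s *
          ((k - 1) * a4 s ^ 2 - (k + 3) * a2 s ^ 2 * a4 s + 4 * a2 s * a6 s)) := by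
      linear_combination ((k + 2) / 12 * a2 s * a4 s + (a2 s * a4 s - a6 s) / 3 +
        a4 s * (k / 12) * a2 s) * h1 + (k * (k + 2) / 144 * a4 s ^ 2 * V s) * he
    have h3 : 0 < (k + 2) / 144 * (V s *
        ((k - 1) * a4 s ^ 2 - (k + 3) * a2 s ^ 2 * a4 s + 4 * a2 s * a6 s)) := by
      have : 0 < k + 2 := by linarith
      positivity
    rw [← e1] at h3
    exact pos_of_mul_pos_right h3 h4.le

theorem Sys.mp3 (H : Sys e k U V) (he : e ^ 2 = 1) (hk : 11 ≤ k) :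
    MP (fun s => a4 s * U s)
      (fun s => (a2 s * a4 s - a6 s) / 3 * U s + a4 s * (k / 12 * a2 s * U s + e * V s))
      (fun s => (5 * a2 s ^ 2 * a4 s + 5 * a4 s ^ 2 - 10 * a2 s * a6 s) / 36 * U s +
        2 * ((a2 s * a4 s - a6 s) / 3) * (k / 12 * a2 s * U s + e * V s) +
        a4 s * (k / 12 * ((a2 s ^ 2 - a4 s) / 12 * U s +
          a2 s * (k / 12 * a2 s * U s + e * V s)) +
          e * ((k + 2) / 12 * a2 s * V s + e * (k * (k + 2) / 144) * a4 s * U s))) where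
  df s hs := by
    have h := (d4 hs).mul (H.dU s hs)
    refine h.congr_deriv ?_
    ring
  dg s hs := by
    have hd : HasDerivAt (fun s => (a2 s * a4 s - a6 s) / 3) (-(2 * Real.pi) *
        ((5 * a2 s ^ 2 * a4 s + 5 * a4 s ^ 2 - 10 * a2 s * a6 s) / 36)) s := by
      have h := (((d2 hs).mul (d4 hs)).sub (d6 hs)).div_const 3
      refine h.congr_deriv ?_
      ring
    have h := (hd.mul (H.dU s hs)).add ((d4 hs).mul
      ((((d2 hs).const_mul (k / 12)).mul (H.dU s hs)).add ((H.dV s hs).const_mul e)))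
    refine h.congr_deriv ?_
    simp only [Pi.mul_apply, Pi.add_apply]
    ring
  hh s hs h1 h2 := by
    have hB := ineq1 hk hs
    have h4 := a4_pos hs
    have hU : 0 < U s := pos_of_mul_pos_right h2 h4.le
    have e1 : 144 * a4 s * ((5 * a2 s ^ 2 * a4 s + 5 * a4 s ^ 2 - 10 * a2 s * a6 s) / 36 * U s +
        2 * ((a2 s * a4 s - a6 s) / 3) * (k / 12 * a2 s * U s + e * V s) +
        a4 s * (k / 12 * ((a2 s ^ 2 - a4 s) / 12 * U s +
          a2 s * (k / 12 * a2 s * U s + e * V s)) +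
          e * ((k + 2) / 12 * a2 s * V s + e * (k * (k + 2) / 144) * a4 s * U s))) =
        U s * ((k ^ 2 + k + 20) * a4 s ^ 3 - (k + 4) * (k + 5) * a2 s ^ 2 * a4 s ^ 2 +
      8 * (k + 4) * a2 s * a4 s * a6 s - 32 * a6 s ^ 2) := by
      linear_combination (96 * (a2 s * a4 s - a6 s) + 144 * a4 s * (k / 12) * a2 s +
        144 * a4 s * ((k + 2) / 12) * a2 s) * h1 + (k * (k + 2) * a4 s ^ 3 * U s) * he
    have h3 : 0 < U s * ((k ^ 2 + k + 20) * a4 s ^ 3 - (k + 4) * (k + 5) * a2 s ^ 2 * a4 s ^ 2 +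
      8 * (k + 4) * a2 s * a4 s * a6 s - 32 * a6 s ^ 2) := mul_pos hU hB
    rw [← e1] at h3
    exact pos_of_mul_pos_right h3 (by positivity)

/-- the transformation `s ↦ 1 / s` -/
theorem inv_deriv (m : ℕ) {F R : ℝ → ℝ}
    (hF : ∀ y, 0 < y → HasDerivAt F (-(2 * Real.pi) * (m / 12 * a2 y * F y + R y)) y) {s : ℝ}
    (hs : 0 < s) : HasDerivAt (fun s => s⁻¹ ^ m * F s⁻¹)
      (-(2 * Real.pi) * (m / 12 * a2 s * (s⁻¹ ^ m * F s⁻¹) + (-1) * (s⁻¹ ^ (m + 2) * R s⁻¹))) s := by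
  have hy : 0 < s⁻¹ := inv_pos.2 hs
  have h1 : HasDerivAt (fun s : ℝ => s⁻¹) (-(s ^ 2)⁻¹) s := hasDerivAt_inv hs.ne'
  have h2 : HasDerivAt (fun s => F s⁻¹)
      (-(2 * Real.pi) * (m / 12 * a2 s⁻¹ * F s⁻¹ + R s⁻¹) * (-(s ^ 2)⁻¹)) s := (hF s⁻¹ hy).comp s h1
  have h3 := (h1.pow m).mul h2
  refine h3.congr_deriv ?_
  rw [a2_inv hs]
  simp only [Pi.pow_apply]
  set p : ℝ := 6 * s / Real.pi with hp
  have hp2 : Real.pi * p = 6 * s := by rw [hp]; field_simp
  have hinv : (s ^ 2)⁻¹ = s⁻¹ ^ 2 := by rw [inv_pow]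
  have hsy : s * s⁻¹ = 1 := mul_inv_cancel₀ hs.ne'
  rw [hinv]
  cases m with
  | zero =>
    push_cast
    ring
  | succ m =>
    simp only [Nat.add_sub_cancel]
    push_cast
    linear_combination (-(2 * Real.pi) * ((m : ℝ) + 1) / 12 * a2 s * F s⁻¹ * s⁻¹ ^ (m + 1) *
      (s * s⁻¹ + 1) + ((m : ℝ) + 1) * F s⁻¹ * s⁻¹ ^ (m + 2)) * hsy +
      (2 * ((m : ℝ) + 1) / 12 * s⁻¹ ^ (m + 3) * F s⁻¹) * hp2

end Pool.Agent.Q17.Ext
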