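import Mathlib
import Pool.Agent.Q17.Ext.Max

/-!
# Monotonicity of the extremal quasimodular forms of depth one
-/

set_option autoImplicit false

open UpperHalfPlane hiding I
open Real Complex Filter Topology Derivative EisensteinSeries ModularForm MatrixGroups Function
open scoped Manifold MatrixGroups ModularForm PowerSeries

namespace Pool.Agent.Q17.Ext

open Pool.Agent.Q17.Mil (HS E2p hs_E2 hs_form HS.mul HS.add HS.smul HS.sub HS.D HS.eq_q coeff_X_deriv
  rr rr_pos rr_lt_one rr_anti)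
open Pool.Agent.Q17 PowerSeries

theorem th_Xpow (n : ℕ) : Mil.R.th ((X : ℝ⟦X⟧) ^ n) = (n : ℝ⟦X⟧) * X ^ n := by
  ext m
  rw [Mil.R.coeff_th, ← map_natCast (C (R := ℝ)), coeff_C_mul, coeff_X_pow]
  split_ifs with h
  · subst h; ring
  · simp

theorem th_Xn (n : ℕ) (A : ℝ⟦X⟧) :
    Mil.R.th (X ^ n * A) = X ^ n * (Mil.R.th A + (n : ℝ⟦X⟧) * A) := by
  rw [Mil.R.th_mul, th_Xpow]; ring

theorem sys1 {n : ℕ} {A B : ℝ⟦X⟧} (h : OD n A B) (cF : Conv (X ^ n * A))
    (cH : Conv (X ^ n * B)) : Sys 1 (6 * n - 1) (ev (X ^ n * A)) (ev (X ^ n * B)) where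
  dU s hs := by
    have h1 := ev_deriv cF hs
    refine h1.congr_deriv ?_
    have e : Mil.R.th (X ^ n * A) = C ((6 * (n : ℝ) - 1) / 12) * (Mil.R.E2 * (X ^ n * A)) +
        X ^ n * B := by
      rw [th_Xn, h.1]
      have : (C ((6 * (n : ℝ) - 1) / 12)) = (6 * (n : ℝ⟦X⟧) - 1) * tt := by
        rw [tt, ← map_natCast (C (R := ℝ)), ← map_ofNat C 6, ← map_one (C (R := ℝ)), ← map_mul,
          ← map_sub, ← map_mul]
        congr 1; ring
      rw [this]; ring
    rw [e, ev_add ((cE2.mul cF).smul _) cH hs, ev_smul, ev_mul cE2 cF hs]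
    ring
  dV s hs := by
    have h1 := ev_deriv cH hs
    refine h1.congr_deriv ?_
    have e : Mil.R.th (X ^ n * B) = C ((6 * (n : ℝ) + 1) / 12) * (Mil.R.E2 * (X ^ n * B)) +
        C ((6 * (n : ℝ) - 1) * (6 * (n : ℝ) + 1) / 144) * (Mil.R.E4 * (X ^ n * A)) := by
      rw [th_Xn, h.2]
      have k1 : (C ((6 * (n : ℝ) + 1) / 12)) = (6 * (n : ℝ⟦X⟧) + 1) * tt := by
        rw [tt, ← map_natCast (C (R := ℝ)), ← map_ofNat C 6, ← map_one (C (R := ℝ)), ← map_mul,
          ← map_add, ← map_mul]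
        congr 1; ring
      have k2 : (C ((6 * (n : ℝ) - 1) * (6 * (n : ℝ) + 1) / 144)) =
          (6 * (n : ℝ⟦X⟧) - 1) * (6 * (n : ℝ⟦X⟧) + 1) * tt ^ 2 := by
        rw [tt, ← map_natCast (C (R := ℝ)), ← map_ofNat C 6, ← map_one (C (R := ℝ)), ← map_mul,
          ← map_add, ← map_sub, ← map_pow, ← map_mul, ← map_mul]
        congr 1; ring
      rw [k1, k2]; ring
    rw [e, ev_add ((cE2.mul cH).smul _) ((cE4.mul cF).smul _) hs, ev_smul, ev_smul,
      ev_mul cE2 cH hs, ev_mul cE4 cF hs]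
    ring

/-- `F(1/s) s^{-K}` -/
noncomputable def GG (F : ℝ⟦X⟧) (K : ℕ) (s : ℝ) : ℝ := s⁻¹ ^ K * ev F s⁻¹

theorem sys2 {F H : ℝ⟦X⟧} {K : ℕ} (h : Sys 1 K (ev F) (ev H)) :
    Sys (-1) K (GG F K) (GG H (K + 2)) where
  dU s hs := by
    have h1 := inv_deriv K (F := ev F) (R := ev H) (fun y hy => (h.dU y hy).congr_deriv (by ring)) hs
    exact h1
  dV s hs := by
    have h1 := inv_deriv (K + 2) (F := ev H) (R := fun y => (K * (K + 2) / 144) * a4 y * ev F y)
      (fun y hy => (h.dV y hy).congr_deriv (by push_cast; ring)) hs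
    refine h1.congr_deriv ?_
    rw [a4_inv hs, GG, GG]
    have hsy : s * s⁻¹ = 1 := mul_inv_cancel₀ hs.ne'
    have hsy4 : s ^ 4 * s⁻¹ ^ 4 = 1 := by rw [← mul_pow, hsy, one_pow]
    push_cast
    linear_combination (2 * π * (K * (K + 2) / 144) * a4 s * ev F s⁻¹ * s⁻¹ ^ K) * hsy4

theorem GG_zero {F : ℝ⟦X⟧} (cF : Conv F) (h0 : constantCoeff F = 0) (K : ℕ) :
    Tendsto (GG F K) (𝓝[>] 0) (𝓝 0) :=
  (tendsto_pow_ev cF h0 K).comp tendsto_inv_nhdsGT_zero

theorem ev_event {A : ℝ⟦X⟧} (hA : 0 < constantCoeff A) :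
    ∀ n : ℕ, Conv (X ^ n * A) → ∀ᶠ s in atTop, 0 < ev (X ^ n * A) s := by
  intro n
  induction n with
  | zero =>
    intro h
    rw [pow_zero, one_mul] at h ⊢
    exact (tendsto_ev h).eventually_const_lt hA
  | succ n ih =>
    intro h
    have e : sh (X ^ (n + 1) * A) = X ^ n * A := by
      ext m
      rw [sh, coeff_mk, pow_succ', mul_assoc, coeff_succ_X_mul]
    have h1 := h.sh
    rw [e] at h1
    filter_upwards [ih h1, eventually_gt_atTop 0] with s hs hs0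
    rw [ev_split h hs0, e]
    have : constantCoeff (X ^ (n + 1) * A) = 0 := by
      rw [map_mul, map_pow, constantCoeff_X]; simp
    rw [this, zero_add]
    exact mul_pos (rr_pos s) hs

theorem cc_Xn {n : ℕ} (hn : 1 ≤ n) (A : ℝ⟦X⟧) : constantCoeff (X ^ n * A) = 0 := by
  rw [map_mul, map_pow, constantCoeff_X, zero_pow (by omega), zero_mul]

/-- **the three cases** -/
theorem mono_all {n : ℕ} (hn : 1 ≤ n) {A B : ℝ⟦X⟧} (h : OD n A B) (hA : constantCoeff A = 1)
    (hB : constantCoeff B = (6 * n + 1) / 12) (cF : Conv (X ^ n * A)) (cH : Conv (X ^ n * B)) :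
    StrictMonoOn (GG (X ^ n * A) (6 * n - 1)) (Set.Ioi 0) ∧
    (2 ≤ n → StrictMonoOn (GG (X ^ n * B) (6 * n - 1 + 2)) (Set.Ioi 0) ∧
      StrictMonoOn (fun s => a4 s * GG (X ^ n * A) (6 * n - 1) s) (Set.Ioi 0)) := by
  set K : ℕ := 6 * n - 1 with hK
  have hKr : (K : ℝ) = 6 * n - 1 := by
    rw [hK, Nat.cast_sub (by omega)]; push_cast; ring
  have hKpos : (0 : ℝ) < K := by
    rw [hKr]
    have : (1 : ℝ) ≤ n := by exact_mod_cast hn
    linarith
  have S1 : Sys 1 K (ev (X ^ n * A)) (ev (X ^ n * B)) := by rw [hKr]; exact sys1 h cF cH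
  have S2 := sys2 S1
  have hF0 := cc_Xn hn A
  have hH0 := cc_Xn hn B
  have hFlim : Tendsto (ev (X ^ n * A)) atTop (𝓝 0) := by
    have := tendsto_ev cF; rwa [hF0] at this
  have hHlim : Tendsto (ev (X ^ n * B)) atTop (𝓝 0) := by
    have := tendsto_ev cH; rwa [hH0] at this
  have hFpos := (S1.mp1 (by norm_num) hKpos).pos hFlim
    (ev_event (by rw [hA]; norm_num) n cF)
  have hGpos : ∀ s, 0 < s → 0 < GG (X ^ n * A) K s := fun s hs => by
    have := hFpos s⁻¹ (inv_pos.2 hs)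
    rw [GG]; positivity
  refine ⟨(S2.mp1 (by norm_num) hKpos).mono (GG_zero cF hF0 K) hGpos, fun hn2 => ?_⟩
  have hK11 : (11 : ℝ) ≤ K := by
    rw [hKr]
    have : (2 : ℝ) ≤ n := by exact_mod_cast hn2
    linarith
  have hHpos := (S1.mp2 (by norm_num) hK11).pos hHlim
    (ev_event (by rw [hB]; positivity) n cH)
  have hKpos2 : ∀ s, 0 < s → 0 < GG (X ^ n * B) (K + 2) s := fun s hs => by
    have := hHpos s⁻¹ (inv_pos.2 hs)
    rw [GG]; positivity
  refine ⟨(S2.mp2 (by norm_num) hK11).mono (GG_zero cH hH0 (K + 2)) hKpos2,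
    (S2.mp3 (by norm_num) hK11).mono ?_ fun s hs => mul_pos (a4_pos hs) (hGpos s hs)⟩
  have h5 : Tendsto (GG (Mil.R.E4 * (X ^ n * A)) (K + 4)) (𝓝[>] 0) (𝓝 0) :=
    GG_zero (cE4.mul cF) (by rw [map_mul, hF0, mul_zero]) (K + 4)
  refine h5.congr' ?_
  filter_upwards [self_mem_nhdsWithin] with s hs
  have hs' : 0 < s := hs
  have h4i : ev Mil.R.E4 s⁻¹ = s ^ 4 * a4 s := a4_inv hs'
  rw [GG, GG, ev_mul cE4 cF (inv_pos.2 hs'), h4i]
  have hsy4 : s ^ 4 * s⁻¹ ^ 4 = 1 := by rw [← mul_pow, mul_inv_cancel₀ hs'.ne', one_pow]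
  linear_combination (a4 s * ev (X ^ n * A) s⁻¹ * s⁻¹ ^ K) * hsy4

/-! ### `q`-expansions of quasimodular forms -/

theorem qExp_of_HS {p : PowerSeries ℂ} {F : ℍ → ℂ} (hF : MDiff F) (h : HS p F) :
    qExpansion 1 F = p := by
  have hs : ∀ τ : ℍ, HasSum (fun m : ℕ => PowerSeries.coeff m p • Function.Periodic.qParam 1 τ ^ m)
    (F τ) := h
  have hb : IsBoundedAtImInfty F := isBoundedAtImInfty_of_hasSum_qExpansion one_pos hs
  have hper : Function.Periodic (F ∘ ofComplex) (1 : ℝ) := by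
    intro w
    by_cases hw : 0 < w.im
    · have hw1 : 0 < (w + (1 : ℝ)).im := by simpa using hw
      simp only [comp_apply, ofComplex_apply_of_im_pos hw1, ofComplex_apply_of_im_pos hw]
      have h1 := hs ⟨w + (1 : ℝ), hw1⟩
      have h2 := hs ⟨w, hw⟩
      have h3 : Function.Periodic.qParam 1 (w + (1 : ℝ)) = Function.Periodic.qParam 1 w := by
        simp only [Function.Periodic.qParam, ofReal_one, div_one]
        rw [mul_add, mul_one, Complex.exp_add, Complex.exp_two_pi_mul_I, mul_one]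
      change HasSum (fun m : ℕ => PowerSeries.coeff m p •
        Function.Periodic.qParam 1 (w + (1 : ℝ)) ^ m) _ at h1
      rw [h3] at h1
      exact h1.unique h2
    · have hw0 : w.im ≤ 0 := not_lt.mp hw
      have hw1 : (w + (1 : ℝ)).im ≤ 0 := by simpa using hw0
      simp only [comp_apply, ofComplex_apply_of_im_nonpos hw0, ofComplex_apply_of_im_nonpos hw1]
  have ha := analyticAt_cuspFunction_zero one_pos hper hF hb
  have h1 := (hasFPowerSeriesOnBall_cuspFunction one_pos ha hs).hasFPowerSeriesAt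
  have h2 := (hasFPowerSeriesOnBall_cuspFunction one_pos ha
    (UpperHalfPlane.hasSum_qExpansion one_pos hper hF hb)).hasFPowerSeriesAt
  ext m
  have h3 := congr_arg (FormalMultilinearSeries.coeff · m) (h1.eq_formalMultilinearSeries h2)
  simp only [FormalMultilinearSeries.coeff_ofScalars] at h3
  exact h3.symm

theorem quasi_HS {k : ℤ} (f : ModularForm 𝒮ℒ k) (g : ModularForm 𝒮ℒ (k - 2)) :
    HS (qExpansion 1 f + E2p * qExpansion 1 g) (fun z => f z + EisensteinSeries.E2 z * g z) :=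
  (hs_form f).add (hs_E2.mul (hs_form g))

theorem quasi_q {k : ℤ} (f : ModularForm 𝒮ℒ k) (g : ModularForm 𝒮ℒ (k - 2)) :
    qExpansion 1 (fun z => f z + EisensteinSeries.E2 z * g z) =
      qExpansion 1 f + E2p * qExpansion 1 g :=
  qExp_of_HS ((ModularFormClass.holo f).add (E2_mdifferentiable.mul (ModularFormClass.holo g)))
    (quasi_HS f g)

/-- **everything together** -/
theorem main (n e : ℕ) (hn : 1 ≤ n) (he : e = 0 ∨ e = 2 ∨ e = 4) :
    ∃ (p : ℝ⟦X⟧), Conv p ∧ (∀ j < n, coeff j p = 0) ∧ coeff n p = 1 ∧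
      QM (6 * n + e) (Mil.R.cm p) ∧
      ((e = 0 ∨ 2 ≤ n) → StrictAntiOn (fun t => t ^ (6 * n + e - 1) * ev p t) (Set.Ioi 0)) := by
  obtain ⟨A, B, h, hA, hB, qF, qH⟩ := seq n
  obtain ⟨f1, g1, e1⟩ := qF
  obtain ⟨f2, g2, e2⟩ := qH
  have cF : Conv (X ^ n * A) := conv_of_HS (by rw [e1]; exact quasi_HS f1 g1)
  have cH : Conv (X ^ n * B) := conv_of_HS (by rw [e2]; exact quasi_HS f2 g2)
  obtain ⟨m1, m2⟩ := mono_all hn h hA hB cF cH
  have c0 : ∀ (f g : ℝ⟦X⟧) j, j < n → coeff j (f * (X ^ n * g)) = 0 := by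
    intro f g j hj
    rw [show f * (X ^ n * g) = (f * g) * X ^ n by ring, coeff_mul_X_pow', if_neg (by omega)]
  have c1 : ∀ f g : ℝ⟦X⟧, coeff n (f * (X ^ n * g)) = constantCoeff f * constantCoeff g := by
    intro f g
    rw [show f * (X ^ n * g) = (f * g) * X ^ n by ring, coeff_mul_X_pow', if_pos le_rfl,
      Nat.sub_self, coeff_zero_eq_constantCoeff_apply, map_mul]
  rcases he with rfl | rfl | rfl
  · refine ⟨X ^ n * A, cF, fun j hj => ?_, ?_, ?_, fun _ => ?_⟩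
    · have := c0 1 A j hj; rwa [one_mul] at this
    · have := c1 1 A; rw [one_mul, map_one, one_mul, hA] at this; exact this
    · exact QM.cast ⟨f1, g1, e1⟩ (by push_cast; ring)
    · intro s hs t ht hst
      have hs' : 0 < s := hs
      have ht' : 0 < t := ht
      have h1 := m1 (Set.mem_Ioi.2 (inv_pos.2 ht')) (Set.mem_Ioi.2 (inv_pos.2 hs'))
        ((inv_lt_inv₀ ht' hs').2 hst)
      rw [GG, GG, inv_inv, inv_inv] at h1
      exact h1
  · have hpos : (0 : ℝ) < 12 / (6 * n + 1) := by positivity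
    refine ⟨C (12 / (6 * (n : ℝ) + 1)) * (X ^ n * B), cH.smul _, fun j hj => c0 _ _ j hj, ?_, ?_,
      fun hh => ?_⟩
    · rw [c1, constantCoeff_C, hB]
      have : (6 * (n : ℝ) + 1) ≠ 0 := by positivity
      field_simp
    · rw [map_mul, cmC]
      exact (QM.smul _ ⟨f2, g2, e2⟩).cast (by push_cast; ring)
    · obtain ⟨m3, _⟩ := m2 (by omega)
      intro s hs t ht hst
      have hs' : 0 < s := hs
      have ht' : 0 < t := ht
      have h1 := m3 (Set.mem_Ioi.2 (inv_pos.2 ht')) (Set.mem_Ioi.2 (inv_pos.2 hs'))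
        ((inv_lt_inv₀ ht' hs').2 hst)
      rw [GG, GG, inv_inv, inv_inv, show 6 * n - 1 + 2 = 6 * n + 2 - 1 by omega] at h1
      simp only [ev_smul]
      have h2 := mul_lt_mul_of_pos_left h1 hpos
      linarith
  · refine ⟨Mil.R.E4 * (X ^ n * A), cE4.mul cF, fun j hj => c0 _ _ j hj, ?_, ?_, fun hh => ?_⟩
    · rw [c1, Mil.R.cc_E4, hA, one_mul]
    · rw [map_mul]
      exact (QM.E4 ⟨f1, g1, e1⟩).cast (by push_cast; ring)
    · obtain ⟨_, m3⟩ := m2 (by omega)
      intro s hs t ht hst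
      have hs' : 0 < s := hs
      have ht' : 0 < t := ht
      have h1 := m3 (Set.mem_Ioi.2 (inv_pos.2 ht')) (Set.mem_Ioi.2 (inv_pos.2 hs'))
        ((inv_lt_inv₀ ht' hs').2 hst)
      simp only at h1
      rw [GG, GG, inv_inv, inv_inv, a4_inv hs', a4_inv ht'] at h1
      simp only
      rw [ev_mul cE4 cF hs', ev_mul cE4 cF ht', show 6 * n + 4 - 1 = 6 * n - 1 + 4 by omega,
        pow_add, pow_add]
      linarith

end Pool.Agent.Q17.Ext
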